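import Pool.Agent.Work.MP_768e99_five.Interface

/-! # Block ALL: induction on the number of vertices of the region -/

set_option autoImplicit false

namespace Pool.K3F

open Pool.Agent.Work.MP_768e99_co

theorem ALL_ind (hS2 : Stmt_S2) (hS1 : Stmt_S1) (V : Type) [Fintype V] (G : SimpleGraph V)
    (s d c K : ℕ) (hP : Par s d c K) (hF : Free G s) (n : ℕ) :
    (∀ (C' O' Y' R' : Set V) (c' : V → Fin 5), C'.ncard < n → St G K C' O' Y' R' c' →
      ∃ c, Good2 G d K C' O' Y' R' c' c) ∧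
    (∀ (C' Z' : Set V) (c' : V → Fin 5), C'.ncard < n → St1 G C' Z' c' →
      ∃ c, Good1 G d C' c' c) := by
  induction n with
  | zero =>
    exact ⟨fun _ _ _ _ _ h => absurd h (Nat.not_lt_zero _),
      fun _ _ _ h => absurd h (Nat.not_lt_zero _)⟩
  | succ n ih =>
    constructor
    · intro C O Y R c₀ hC hst
      refine hS2 V G s d c K C O Y R c₀ hP hF hst ?_ ?_
      · intro C' O' Y' R' c' h hst'
        exact ih.1 C' O' Y' R' c' (by omega) hst'
      · intro C' Z' c' h hst'
        exact ih.2 C' Z' c' (by omega) hst'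
    · intro C Z c₀ hC hst
      refine hS1 V G d K C Z c₀ hst ?_ ?_
      · intro C' O' Y' R' c' h hst'
        exact ih.1 C' O' Y' R' c' (by omega) hst'
      · intro C' Z' c' h hst'
        exact ih.2 C' Z' c' (by omega) hst'

theorem p_ALL (hS2 : Stmt_S2) (hS1 : Stmt_S1) (hGL : Stmt_GL) (_hTR : Stmt_TR)
    (hCMP : Stmt_CMP) : Stmt_ALL := by
  intro V _ G s d c K hP hF
  have key : ∀ F, IsCmp G Set.univ F → ∃ c₁, Good1 G d F (fun _ : V => (0 : Fin 5)) c₁ := by
    intro F hFc
    refine (ALL_ind hS2 hS1 V G s d c K hP hF (F.ncard + 1)).2 F ∅ _ (Nat.lt_succ_self _) ?_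
    refine ⟨hFc.1, Or.inl rfl, Set.disjoint_empty _, fun x hx u hu => ?_, 0, 0, ?_⟩
    · exact Or.inl (hFc.2.2 x hx u (Set.mem_univ u) hu)
    · intro x _ u hu
      exact absurd hu (Set.notMem_empty u)
  classical
  let cF : Set V → V → Fin 5 := fun F =>
    if h : IsCmp G Set.univ F then (key F h).choose else fun _ => 0
  have hcF : ∀ F, IsCmp G Set.univ F → Good1 G d F (fun _ : V => (0 : Fin 5)) (cF F) := by
    intro F h
    have h1 : cF F = (key F h).choose := by
      show (if h : IsCmp G Set.univ F then (key F h).choose else fun _ => 0) = _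
      rw [dif_pos h]
    rw [h1]
    exact (key F h).choose_spec
  obtain ⟨col, -, hcol⟩ := hGL V G Set.univ (fun _ => 0) cF
  refine ⟨col, fun v => ?_⟩
  obtain ⟨h1, h2⟩ := (hCMP V G Set.univ).1 v (Set.mem_univ v)
  have h3 := (hcF _ h1).defect v h2
  refine le_trans (le_of_eq ?_) h3
  congr 1
  ext w
  constructor
  · rintro ⟨ha, hb⟩
    have hw := h1.2.2 v h2 w (Set.mem_univ w) ha
    rw [hcol _ h1 w hw, hcol _ h1 v h2] at hb
    exact ⟨ha, hb⟩
  · rintro ⟨ha, hb⟩
    have hw := h1.2.2 v h2 w (Set.mem_univ w) ha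
    refine ⟨ha, ?_⟩
    rw [hcol _ h1 w hw, hcol _ h1 v h2]
    exact hb

end Pool.K3F
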