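import Pool.Agent.Work.MP_768e99_five.Interface

/-!
# Block AN1
-/

set_option autoImplicit false

namespace Pool.K3F

open Pool.Agent.Work.MP_768e99_co

theorem AN1_card {V : Type} [Fintype V] (J : Fin 3 → Set V) :
    {p : Fin 3 × V | p.2 ∈ J p.1}.ncard = ∑ j, (J j).ncard := by
  classical
  have h : {p : Fin 3 × V | p.2 ∈ J p.1} =
      ↑(Finset.univ.filter fun p : Fin 3 × V => p.2 ∈ J p.1) := by
    ext p
    simp
  rw [h, Set.ncard_coe_finset, Finset.card_filter, ← Finset.univ_product_univ,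
    Finset.sum_product]
  refine Finset.sum_congr rfl fun j _ => ?_
  have h2 : J j = ↑(Finset.univ.filter fun y : V => y ∈ J j) := by
    ext y
    simp
  conv_rhs => rw [h2]
  rw [Set.ncard_coe_finset, Finset.card_filter]

theorem p_AN1 (hK3 : Stmt_K3) (hCN2 : Stmt_CN2) : Stmt_AN1 := by
  intro V _ G s d O Q x F x' I J P hO hQ hOQ hxO hxQ hF hFF hst hJ hs
  have hmem : ∀ j, x' j ∈ F j := fun j => (hst j).2.mem
  have hA : Conn G ({x} ∪ ⋃₀ {S | ∃ j, S = {x' j}}) := by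
    refine hCN2 V G {x} _ (Conn.singleton x) ?_
    rintro S ⟨j, rfl⟩
    exact ⟨Conn.singleton _, Or.inl ⟨x' j, rfl, x, rfl, (hst j).1.symm⟩⟩
  have hAmem : ∀ z ∈ ({x} ∪ ⋃₀ {S | ∃ j, S = {x' j}} : Set V), z = x ∨ ∃ j, z = x' j := by
    rintro z (hz | ⟨S, ⟨j, rfl⟩, hz⟩)
    · exact Or.inl hz
    · exact Or.inr ⟨j, hz⟩
  have hAO : Disjoint ({x} ∪ ⋃₀ {S | ∃ j, S = {x' j}} : Set V) O := by
    rw [Set.disjoint_left]
    intro z hz hzO
    rcases hAmem z hz with rfl | ⟨j, rfl⟩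
    · exact hxO hzO
    · exact Set.disjoint_left.1 (hF j).1 (hmem j) hzO
  have hAQ : Disjoint ({x} ∪ ⋃₀ {S | ∃ j, S = {x' j}} : Set V) Q := by
    rw [Set.disjoint_left]
    intro z hz hzQ
    rcases hAmem z hz with rfl | ⟨j, rfl⟩
    · exact hxQ hzQ
    · exact Set.disjoint_left.1 (hF j).2.1 (hmem j) hzQ
  have hleaf : ∀ j, ∀ y ∈ J j, Conn G (P j y) ∧ P j y ⊆ F j ∧ x' j ∉ P j y ∧
      Tch G (P j y) {x' j} ∧ Tch G (P j y) O := by
    intro j y hy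
    obtain ⟨h1, h2, h3, h4, h5, -⟩ := (hst j).2.leaf y ((hJ j).1 hy)
    exact ⟨h1, h2, h3, h4, h5⟩
  refine hK3 V G s _ O Q (Fin 3 × V) {p : Fin 3 × V | p.2 ∈ J p.1} (fun p => P p.1 p.2)
    hA hO hQ hAO hAQ hOQ ?_ ?_ ?_
  · rintro ⟨j, y⟩ hy
    have hy' : y ∈ J j := hy
    obtain ⟨h1, h2, h3, h4, h5⟩ := hleaf j y hy'
    refine ⟨h1, ?_, ?_, ?_, ?_, h5, (hJ j).2 y hy'⟩
    · rw [Set.disjoint_left]
      intro z hz hzP
      rcases hAmem z hz with rfl | ⟨i, rfl⟩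
      · exact (hF j).2.2 (h2 hzP)
      · by_cases hij : i = j
        · subst hij
          exact h3 hzP
        · exact Set.disjoint_left.1 (hFF i j hij) (hmem i) (h2 hzP)
    · exact ((hF j).1.mono_left h2).symm
    · exact ((hF j).2.1.mono_left h2).symm
    · exact h4.mono (le_refl _) fun z hz => Or.inr ⟨{x' j}, ⟨j, rfl⟩, hz⟩
  · rintro ⟨i, y⟩ hy ⟨j, y'⟩ hy' hne
    have h1 : y ∈ J i := hy
    have h2 : y' ∈ J j := hy'
    by_cases hij : i = j
    · subst hij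
      exact (hst i).2.dj y ((hJ i).1 h1) y' ((hJ i).1 h2) fun h => hne (by rw [h])
    · exact (hFF i j hij).mono (hleaf i y h1).2.1 (hleaf j y' h2).2.1
  · rw [AN1_card]
    exact hs

end Pool.K3F
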