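import Pool.Agent.Work.MP_768e99_five.Interface

set_option autoImplicit false

namespace Pool.K3F

open Pool.Agent.Work.MP_768e99_co

theorem AN2_single {V : Type} (G : SimpleGraph V) (x : V) : Conn G {x} := by
  refine ⟨⟨x, rfl⟩, ?_⟩
  intro T hT hne _
  obtain ⟨y, hy⟩ := hne
  have hyx : y = x := hT hy
  subst hyx
  intro z hz
  have hzy : z = y := hz
  rw [hzy]
  exact hy

theorem AN2_count {V : Type} [Fintype V] (J : Fin 3 → Set V) (y₀ : Fin 3 → V) :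
    ∑ j, (J j).ncard ≤ {p : Fin 3 × V | p.2 ∈ J p.1 ∧ p.2 ≠ y₀ p.1}.ncard + 3 := by
  classical
  have h1 : {p : Fin 3 × V | p.2 ∈ J p.1 ∧ p.2 ≠ y₀ p.1}.ncard =
      ∑ j, (J j \ {y₀ j}).ncard := by
    rw [Set.ncard_eq_toFinset_card', Set.toFinset_ofPred, Finset.card_filter,
      Fintype.sum_prod_type]
    refine Finset.sum_congr rfl fun j _ => ?_
    rw [Set.ncard_eq_toFinset_card', ← Finset.card_filter]
    congr 1
    ext y
    simp
  rw [h1]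
  have h2 : ∀ j, (J j).ncard ≤ (J j \ {y₀ j}).ncard + 1 := by
    intro j
    have := Set.pred_ncard_le_ncard_sdiff_singleton (J j) (y₀ j)
    omega
  calc ∑ j, (J j).ncard ≤ ∑ j, ((J j \ {y₀ j}).ncard + 1) := Finset.sum_le_sum fun j _ => h2 j
    _ = ∑ j, (J j \ {y₀ j}).ncard + 3 := by
      rw [Finset.sum_add_distrib]
      simp

theorem p_AN2 (hTJ : Stmt_TJ) (hK3 : Stmt_K3) (hCN2 : Stmt_CN2) : Stmt_AN2 := by
  intro V _ G s d O Q x F x' I J P hO hQ hOQ hxO hxQ hF hFF hS hJ hs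
  have hT : ∀ j, ∃ T ⊆ F j, Conn G T ∧ x' j ∈ T ∧ Tch G T Q ∧
      ∃ y₀, ∀ y ∈ I j, y ≠ y₀ → Disjoint T (P j y) := fun j =>
    hTJ V G d (F j) O (insert x Q) Q (x' j) (I j) (P j) (hF j).1 (hF j).2.2.2.2 (hS j)
  choose T hTF hTc hTx hTQ y₀ hTd using hT
  have hdj : ∀ (S U S' U' : Set V), Disjoint S U → S' ⊆ S → U' ⊆ U → Disjoint S' U' :=
    fun S U S' U' h h1 h2 => Disjoint.mono h1 h2 h
  have hA3 : Conn G (Q ∪ ⋃₀ Set.range T) := by
    refine hCN2 V G Q (Set.range T) hQ ?_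
    rintro S ⟨j, rfl⟩
    exact ⟨hTc j, Or.inl (hTQ j)⟩
  refine hK3 V G s {x} O (Q ∪ ⋃₀ Set.range T) (Fin 3 × V)
    {p : Fin 3 × V | p.2 ∈ J p.1 ∧ p.2 ≠ y₀ p.1} (fun p => P p.1 p.2) (AN2_single G x) hO hA3
    (Set.disjoint_singleton_left.2 hxO) ?_ ?_ ?_ ?_ ?_
  · rw [Set.disjoint_singleton_left]
    rintro (h | ⟨S, ⟨j, rfl⟩, h⟩)
    · exact hxQ h
    · exact (hF j).2.2.2.1 (hTF j h)
  · rw [Set.disjoint_union_right]
    refine ⟨hOQ, ?_⟩
    rw [Set.disjoint_sUnion_right]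
    rintro S ⟨j, rfl⟩
    exact hdj _ _ _ _ (hF j).2.1.symm subset_rfl (hTF j)
  · rintro ⟨j, y⟩ ⟨hy, hy0⟩
    have hyI := (hJ j).1 hy
    obtain ⟨l1, l2, l3, l4, l5, l6⟩ := (hS j).leaf y hyI
    refine ⟨l1, ?_, ?_, ?_, (hJ j).2 y hy, l5, ?_⟩
    · rw [Set.disjoint_singleton_left]
      exact fun h => (hF j).2.2.2.1 (l2 h)
    · exact hdj _ _ _ _ (hF j).2.1.symm subset_rfl l2
    · rw [Set.disjoint_union_left]
      refine ⟨hdj _ _ _ _ (hF j).2.2.1.symm subset_rfl l2, ?_⟩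
      rw [Set.disjoint_sUnion_left]
      rintro S ⟨i, rfl⟩
      by_cases hij : i = j
      · subst hij
        exact hTd i y hyI hy0
      · exact hdj _ _ _ _ (hFF i j hij) (hTF i) l2
    · refine l4.mono subset_rfl ?_
      rintro z hz
      have hzx : z = x' j := hz
      rw [hzx]
      exact Or.inr ⟨T j, ⟨j, rfl⟩, hTx j⟩
  · rintro ⟨j, y⟩ ⟨hy, -⟩ ⟨i, z⟩ ⟨hz, -⟩ hne
    have hyI := (hJ j).1 hy
    have hzI := (hJ i).1 hz
    by_cases hij : j = i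
    · subst hij
      refine (hS j).dj y hyI z hzI ?_
      rintro rfl
      exact hne rfl
    · exact hdj _ _ _ _ (hFF j i hij) ((hS j).leaf y hyI).2.1 ((hS i).leaf z hzI).2.1
  · have := AN2_count J y₀
    omega

end Pool.K3F
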