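import Pool.Agent.Work.MP_768e99_five.Interface

/-! # Five colours for `K_{3,s}`-minor-free graphs: block ANT -/

set_option autoImplicit false

namespace Pool.K3F

open Pool.Agent.Work.MP_768e99_co

theorem p_ANT (hAN1 : Stmt_AN1) (hAN2 : Stmt_AN2) : Stmt_ANT := by
  classical
  intro V _ G s d c K O Q x F hPar hO hQ hOQ hxO hxQ hF hFF hst
  choose x' I P hadj hstar using hst
  let A : Fin 3 → Set V := fun j => {y | y ∈ I j ∧ Tch G (P j y) {x}}
  let B : Fin 3 → Set V := fun j => {y | y ∈ I j ∧ Tch G (P j y) Q}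
  by_cases hb : s ≤ ∑ j, (B j).ncard
  · exact hAN1 V G s d O Q x F x' I B P hO hQ hOQ hxO hxQ
      (fun j => ⟨(hF j).2.1, (hF j).2.2.1, (hF j).2.2.2.1⟩) hFF (fun j => ⟨hadj j, hstar j⟩)
      (fun j => ⟨fun y hy => hy.1, fun y hy => hy.2⟩) hb
  by_cases ha : s + 3 ≤ ∑ j, (A j).ncard
  · exact hAN2 V G s d O Q x F x' I A P hO hQ hOQ hxO hxQ hF hFF hstar
      (fun j => ⟨fun y hy => hy.1, fun y hy => hy.2⟩) ha
  exfalso
  have hj : ∀ j, d + 1 ≤ (A j).ncard + (B j).ncard := by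
    intro j
    refine (hstar j).card.trans ?_
    refine le_trans ?_ (Set.ncard_union_le _ _)
    refine Set.ncard_le_ncard ?_ (Set.toFinite _)
    intro y hy
    obtain ⟨-, -, -, -, -, u, hu, w, hw, hadj'⟩ := (hstar j).leaf y hy
    rcases hw with rfl | hw
    · exact Or.inl ⟨hy, u, hu, w, rfl, hadj'⟩
    · exact Or.inr ⟨hy, u, hu, w, hw, hadj'⟩
  have h0 := hj 0
  have h1 := hj 1
  have h2 := hj 2
  rw [Fin.sum_univ_three] at ha hb
  obtain ⟨hs, -, -, -, -, hc⟩ := hPar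
  omega

end Pool.K3F
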