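import Pool.Agent.Work.MP_768e99_five.Interface

/-!
# Block BST: the star of a special vertex
-/

set_option autoImplicit false

namespace Pool.K3F

open Pool.Agent.Work.MP_768e99_co

theorem p_BST : Stmt_BST := by
  intro V G d C O Y H P hC x hx hcard
  refine ⟨hC.sub hx, hcard, ?_, ?_⟩
  · rintro y ⟨hy, hadj⟩
    obtain ⟨h1, h2, h3, h4, h5, h6⟩ := hC.path y hy
    refine ⟨h1, h3, ?_, ⟨y, h2, x, rfl, hadj.symm⟩, h5, h6⟩
    intro hxP
    have h7 : x ∈ P y ∩ H := ⟨hxP, hx⟩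
    rw [h4] at h7
    have h8 : x = y := h7
    subst h8
    exact G.loopless.irrefl _ hadj
  · rintro y ⟨hy, -⟩ y' ⟨hy', -⟩ hne
    exact hC.dj y hy y' hy' hne

end Pool.K3F
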