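import Pool.Agent.Work.MP_768e99_five.Interface

/-!
# Block CMP (typed by helper63): components
-/

set_option autoImplicit false

namespace Pool.K3F

open Pool.Agent.Work.MP_768e99_co

/-- a connected subset meeting a component lies in it -/
theorem CMP_sub {V : Type} {G : SimpleGraph V} {S F T : Set V} (hF : IsCmp G S F) (hT : T ⊆ S)
    (hc : Conn G T) (hn : (T ∩ F).Nonempty) : T ⊆ F := by
  have h := hc.2 (T ∩ F) Set.inter_subset_left hn
    (fun x hx y hy hxy => ⟨hy, hF.2.2 x hx.2 y (hT hy) hxy⟩)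
  exact h.trans Set.inter_subset_right

theorem p_CMP : Stmt_CMP := by
  intro V G S
  have h2 : ∀ F, IsCmp G S F → ∀ v ∈ F, Cmp G S v = F := by
    intro F hF v hv
    ext w
    constructor
    · rintro ⟨T, hT, hc, hvT, hwT⟩
      exact CMP_sub hF hT hc ⟨v, hvT, hv⟩ hwT
    · intro hw
      exact ⟨F, hF.2.1, hF.1, hv, hw⟩
  refine ⟨?_, h2, ?_, fun F hF T hT hc hn => CMP_sub hF hT hc hn⟩
  · intro v hv
    have hvC : v ∈ Cmp G S v :=
      ⟨{v}, by simpa using hv, Conn.singleton v, rfl, rfl⟩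
    refine ⟨⟨⟨⟨v, hvC⟩, ?_⟩, ?_, ?_⟩, hvC⟩
    · intro X hX hXn hcl
      have key : ∀ T : Set V, T ⊆ S → Conn G T → v ∈ T → (T ∩ X).Nonempty → T ⊆ X := by
        intro T hT hc hvT hn
        have h := hc.2 (T ∩ X) Set.inter_subset_left hn
          (fun x hx y hy hxy => ⟨hy, hcl x hx.2 y ⟨T, hT, hc, hvT, hy⟩ hxy⟩)
        exact h.trans Set.inter_subset_right
      obtain ⟨x, hx⟩ := hXn
      obtain ⟨T, hT, hc, hvT, hxT⟩ := hX hx
      have hvX : v ∈ X := key T hT hc hvT ⟨x, hxT, hx⟩ hvT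
      rintro w ⟨T', hT', hc', hvT', hwT'⟩
      exact key T' hT' hc' hvT' ⟨v, hvT', hvX⟩ hwT'
    · rintro w ⟨T, hT, -, -, hwT⟩
      exact hT hwT
    · rintro x ⟨T, hT, hc, hvT, hxT⟩ y hy hxy
      refine ⟨T ∪ {y}, ?_, ?_, Or.inl hvT, Or.inr rfl⟩
      · rintro z (hz | hz)
        · exact hT hz
        · rw [Set.mem_singleton_iff] at hz
          rw [hz]
          exact hy
      · refine Conn.union hc ?_
        intro z hz
        rw [Set.mem_singleton_iff] at hz
        rw [hz]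
        exact ⟨x, hxT, hxy.symm⟩
  · intro F F' hF hF' hne
    rw [Set.disjoint_left]
    intro v hv hv'
    exact hne ((h2 F hF v hv).symm.trans (h2 F' hF' v hv'))

end Pool.K3F
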