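import Pool.Agent.Work.MP_768e99_five.Interface

/-! # Block CN2 -/

set_option autoImplicit false

namespace Pool.K3F

open Pool.Agent.Work.MP_768e99_co

theorem p_CN2 : Stmt_CN2 := by
  intro V G Q 𝓢 hQ hS
  refine ⟨hQ.1.mono Set.subset_union_left, ?_⟩
  rintro T hT ⟨t, ht⟩ hc
  have hA : ∀ S, S ⊆ Q ∪ ⋃₀ 𝓢 → Conn G S → (S ∩ T).Nonempty → S ⊆ T := by
    intro S hSU hSc hST
    have h := hSc.2 (S ∩ T) Set.inter_subset_left hST (by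
      rintro x ⟨hx, hxT⟩ y hy hxy
      exact ⟨hy, hc x hxT y (hSU hy) hxy⟩)
    exact fun x hx => (h hx).2
  have hQU : Q ⊆ Q ∪ ⋃₀ 𝓢 := Set.subset_union_left
  have hSU : ∀ S ∈ 𝓢, S ⊆ Q ∪ ⋃₀ 𝓢 := fun S h =>
    (Set.subset_sUnion_of_mem h).trans Set.subset_union_right
  have hQT : Q ⊆ T := by
    rcases hT ht with h | ⟨S, h, htS⟩
    · exact hA Q hQU hQ ⟨t, h, ht⟩
    · have h1 := hA S (hSU S h) (hS S h).1 ⟨t, htS, ht⟩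
      rcases (hS S h).2 with ⟨x, hx, y, hy, hxy⟩ | ⟨x, hx, hxQ⟩
      · exact hA Q hQU hQ ⟨y, hy, hc x (h1 hx) y (hQU hy) hxy⟩
      · exact hA Q hQU hQ ⟨x, hxQ, h1 hx⟩
  rintro x (hx | ⟨S, h, hx⟩)
  · exact hQT hx
  · refine hA S (hSU S h) (hS S h).1 ?_ hx
    rcases (hS S h).2 with ⟨a, ha, b, hb, hab⟩ | ⟨a, ha, haQ⟩
    · exact ⟨a, ha, hc b (hQT hb) a (hSU S h ha) hab.symm⟩
    · exact ⟨a, ha, hQT haQ⟩

end Pool.K3F
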