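import Pool.Agent.Work.MP_768e99_five.Interface

set_option autoImplicit false

namespace Pool.K3F

open Pool.Agent.Work.MP_768e99_co

theorem p_CNT : Stmt_CNT := by
  intro V _ S κ K h1 h3
  rcases S.eq_empty_or_nonempty with rfl | ⟨y₀, hy₀⟩
  · simp
  by_cases hall : ∀ y ∈ S, κ y = κ y₀
  · have hsub : S ⊆ {z | z ∈ S ∧ κ z = κ y₀} := fun z hz => ⟨hz, hall z hz⟩
    have := (Set.ncard_le_ncard hsub (Set.toFinite _)).trans (h1 y₀ hy₀)
    omega
  · push Not at hall
    obtain ⟨y₁, hy₁, hne⟩ := hall
    have hsub : S ⊆ {z | z ∈ S ∧ κ z = κ y₀} ∪ {z | z ∈ S ∧ κ z = κ y₁} := by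
      intro z hz
      by_contra hcon
      simp only [Set.mem_union, Set.mem_setOf_eq, hz, true_and, not_or] at hcon
      refine h3 ![y₀, y₁, z] ?_ ?_
      · intro j
        fin_cases j
        · exact hy₀
        · exact hy₁
        · exact hz
      · intro i j hij
        fin_cases i <;> fin_cases j
        · exact absurd rfl hij
        · exact fun h => hne h.symm
        · exact fun h => hcon.1 h.symm
        · exact hne
        · exact absurd rfl hij
        · exact fun h => hcon.2 h.symm
        · exact hcon.1
        · exact hcon.2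
        · exact absurd rfl hij
    have h2 := (Set.ncard_le_ncard hsub (Set.toFinite _)).trans (Set.ncard_union_le _ _)
    have h4 := h1 y₀ hy₀
    have h5 := h1 y₁ hy₁
    omega

end Pool.K3F
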