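import Pool.Agent.Work.MP_768e99_five.Interface

/-!
# Block COL (MP_768e99_co): choice of the two new colours (helper94)
-/

set_option autoImplicit false

namespace Pool.K3F

open Pool.Agent.Work.MP_768e99_co

/-- a fifth colour -/
theorem COL_fifth (a b c d : Fin 5) : ∃ f : Fin 5, f ≠ a ∧ f ≠ b ∧ f ≠ c ∧ f ≠ d := by
  have h : (({a, b, c, d} : Finset (Fin 5))).card < (Finset.univ : Finset (Fin 5)).card := by
    have h1 : (({a, b, c, d} : Finset (Fin 5))).card ≤ 4 := Finset.card_le_four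
    simp only [Finset.card_univ, Fintype.card_fin]
    omega
  obtain ⟨f, -, hf⟩ := Finset.exists_mem_notMem_of_card_lt_card h
  simp only [Finset.mem_insert, Finset.mem_singleton, not_or] at hf
  exact ⟨f, hf.1, hf.2.1, hf.2.2.1, hf.2.2.2⟩

theorem p_COL : Stmt_COL := by
  intro V G K C O Y R c₀ hS
  obtain ⟨o, o', ho⟩ := hS.vO
  obtain ⟨y, y', hy⟩ := hS.vY
  have out := hS.reg.out
  obtain ⟨f, f1, f2, f3, f4⟩ := COL_fifth o o' y y'
  -- the colours which are visible from `C`
  have vis : ∀ x ∈ C, ∀ u, u ∉ C → G.Adj x u →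
      (c₀ u = o ∨ c₀ u = o') ∨ (u ∈ Y ∧ u ∉ R ∧ c₀ u = y) ∨ (u ∈ R ∧ c₀ u = y') := by
    intro x hx u hu hxu
    rcases out x hx u hxu with h | h | h
    · exact absurd h hu
    · exact Or.inl (ho x hx u h hxu)
    · by_cases hR : u ∈ R
      · exact Or.inr (Or.inr ⟨hR, (hy x hx u h hxu).2 hR⟩)
      · exact Or.inr (Or.inl ⟨h, hR, (hy x hx u h hxu).1 hR⟩)
  have hf : ∀ x ∈ C, ∀ u, u ∉ C → G.Adj x u → c₀ u ≠ f := by
    intro x hx u hu hxu h
    rcases vis x hx u hu hxu with (h' | h') | ⟨-, -, h'⟩ | ⟨-, h'⟩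
    · exact f1 (h.symm.trans h')
    · exact f2 (h.symm.trans h')
    · exact f3 (h.symm.trans h')
    · exact f4 (h.symm.trans h')
  by_cases hT : Tch G C (Y \ R)
  · by_cases hy' : y' = o ∨ y' = o' ∨ y' = y
    · obtain ⟨g, g1, g2, g3, g4⟩ := COL_fifth o o' y f
      refine ⟨f, g, g4.symm, hf, ?_⟩
      intro x hx u hu hxu h
      rcases vis x hx u hu hxu with (h' | h') | ⟨-, -, h'⟩ | ⟨-, h'⟩
      · exact absurd (h.symm.trans h') g1
      · exact absurd (h.symm.trans h') g2
      · exact absurd (h.symm.trans h') g3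
      · rcases hy' with e | e | e
        · exact absurd (h.symm.trans (h'.trans e)) g1
        · exact absurd (h.symm.trans (h'.trans e)) g2
        · exact absurd (h.symm.trans (h'.trans e)) g3
    · simp only [not_or] at hy'
      refine ⟨f, y', f4, hf, ?_⟩
      intro x hx u hu hxu h
      rcases vis x hx u hu hxu with (h' | h') | ⟨-, -, h'⟩ | ⟨hR, -⟩
      · exact absurd (h.symm.trans h') hy'.1
      · exact absurd (h.symm.trans h') hy'.2.1
      · exact absurd (h.symm.trans h') hy'.2.2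
      · exact ⟨hR, hT⟩
  · by_cases hy' : y = o ∨ y = o' ∨ y = y'
    · obtain ⟨g, g1, g2, g3, g4⟩ := COL_fifth o o' y' f
      refine ⟨f, g, g4.symm, hf, ?_⟩
      intro x hx u hu hxu h
      rcases vis x hx u hu hxu with (h' | h') | ⟨-, -, h'⟩ | ⟨-, h'⟩
      · exact absurd (h.symm.trans h') g1
      · exact absurd (h.symm.trans h') g2
      · rcases hy' with e | e | e
        · exact absurd (h.symm.trans (h'.trans e)) g1
        · exact absurd (h.symm.trans (h'.trans e)) g2
        · exact absurd (h.symm.trans (h'.trans e)) g3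
      · exact absurd (h.symm.trans h') g3
    · simp only [not_or] at hy'
      refine ⟨f, y, f3, hf, ?_⟩
      intro x hx u hu hxu h
      rcases vis x hx u hu hxu with (h' | h') | ⟨hY, hR, -⟩ | ⟨-, h'⟩
      · exact absurd (h.symm.trans h') hy'.1
      · exact absurd (h.symm.trans h') hy'.2.1
      · exact absurd ⟨x, hx, u, ⟨hY, hR⟩, hxu⟩ hT
      · exact absurd (h.symm.trans h') hy'.2.2

end Pool.K3F
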