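import Pool.Agent.Work.MP_768e99_five.Interface
import Pool.Agent.Work.MP_768e99_zero.MEN

set_option autoImplicit false

namespace Pool.K3F

open Pool.Agent.Work.MP_768e99_co

/-- `Z` separates `O` from `Y` in `C`. -/
def CUT_Sp {V : Type} (G : SimpleGraph V) (C O Y Z : Set V) : Prop :=
  ∀ F : Set V, F ⊆ C \ Z → Conn G F → ¬ (Tch G F O ∧ Tch G F Y)

theorem CUT_min {V : Type} (G : SimpleGraph V) (C O Y : Set V) :
    ∃ H : Set V, H ⊆ C ∧ CUT_Sp G C O Y H ∧ ∀ Z ⊆ C, Z.ncard < H.ncard → ¬ CUT_Sp G C O Y Z := by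
  classical
  have hex : ∃ k : ℕ, ∃ Z ⊆ C, CUT_Sp G C O Y Z ∧ Z.ncard = k := by
    refine ⟨_, C, subset_rfl, ?_, rfl⟩
    intro F hF hc
    obtain ⟨x, hx⟩ := hc.1
    exact absurd (hF hx).1 (hF hx).2
  obtain ⟨H, hHC, hH, hk⟩ := Nat.find_spec hex
  refine ⟨H, hHC, hH, fun Z hZ hlt hs => ?_⟩
  rw [hk] at hlt
  exact Nat.find_min hex hlt ⟨Z, hZ, hs, rfl⟩

theorem p_CUT : Stmt_CUT := by
  intro V _ G C O Y hR
  obtain ⟨H, hHC, hH, hmin⟩ := CUT_min G C O Y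
  have hHf : H.Finite := Set.toFinite _
  obtain ⟨D, hDU, hDc, hDd, hDP, hDQ⟩ := Pool.Agent.Work.MP_216d61_lc.stmt_MEN V G C
    {x | x ∈ C ∧ ∃ y ∈ O, G.Adj x y} {x | x ∈ C ∧ ∃ y ∈ Y, G.Adj x y} H.ncard (Set.toFinite _)
    (fun x hx => hx.1) (fun x hx => hx.1) (by
      intro Z hZ hlt
      have h := hmin Z hZ hlt
      unfold CUT_Sp at h
      push Not at h
      obtain ⟨F, hF, hc, ⟨x, hx, o, ho, hxo⟩, ⟨y, hy, u, hu, hyu⟩⟩ := h
      exact ⟨x, ⟨(hF hx).1, o, ho, hxo⟩, y, ⟨(hF hy).1, u, hu, hyu⟩,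
        Pool.Agent.Work.MP_216d61_lc.MenAux.lnk_mono hF (Pool.Agent.Work.MP_216d61_lc.MenAux.conn_lnk
          (Pool.Agent.Work.MP_768e99_zero.MenAux.conn_to hc) hx hy)⟩)
  have hO : ∀ i, Tch G (D i) O := fun i => by
    obtain ⟨x, hx, _, y, hy, hxy⟩ := hDP i
    exact ⟨x, hx, y, hy, hxy⟩
  have hY : ∀ i, Tch G (D i) Y := fun i => by
    obtain ⟨x, hx, _, y, hy, hxy⟩ := hDQ i
    exact ⟨x, hx, y, hy, hxy⟩
  have hc : ∀ i, Conn G (D i) := fun i => Pool.Agent.Work.MP_768e99_zero.MenAux.conn_of (hDc i)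
  have hmeet : ∀ i, ∃ x, x ∈ D i ∧ x ∈ H := by
    intro i
    by_contra hno
    push Not at hno
    exact hH (D i) (fun x hx => ⟨hDU i hx, hno x hx⟩) (hc i) ⟨hO i, hY i⟩
  choose h hhD hhH using hmeet
  have hinj : Function.Injective h := by
    intro i j hij
    by_contra hne
    exact Set.disjoint_left.1 (hDd i j hne) (hhD i) (hij ▸ hhD j)
  have hrange : Set.range h = H := by
    refine Set.eq_of_subset_of_ncard_le ?_ ?_ hHf
    · rintro _ ⟨i, rfl⟩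
      exact hhH i
    · rw [Set.ncard_range_of_injective hinj]
      simp
  have hP : ∀ v : V, ∃ S : Set V, v ∈ H → ∃ i, h i = v ∧ S = D i := by
    intro v
    by_cases hv : v ∈ H
    · rw [← hrange] at hv
      obtain ⟨i, hi⟩ := hv
      exact ⟨D i, fun _ => ⟨i, hi, rfl⟩⟩
    · exact ⟨∅, fun h => absurd h hv⟩
  choose P hP using hP
  refine ⟨H, P, ?_, hHC, ?_, ?_, hH⟩
  · by_contra hne
    rw [Set.not_nonempty_iff_eq_empty] at hne
    refine hH C ?_ hR.conn ⟨hR.tO, hR.tY⟩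
    rw [hne, Set.sdiff_empty]
  · intro v hv
    obtain ⟨i, hi, hS⟩ := hP v hv
    rw [hS]
    refine ⟨hc i, hi ▸ hhD i, hDU i, ?_, hO i, hY i⟩
    ext z
    simp only [Set.mem_inter_iff, Set.mem_singleton_iff]
    constructor
    · rintro ⟨hz, hzH⟩
      rw [← hrange] at hzH
      obtain ⟨j, hj⟩ := hzH
      have hij : i = j := by
        by_contra hne
        exact Set.disjoint_left.1 (hDd i j hne) hz (hj ▸ hhD j)
      rw [← hj, ← hij, hi]
    · rintro rfl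
      exact ⟨hi ▸ hhD i, hv⟩
  · intro v hv v' hv' hne
    obtain ⟨i, hi, hS⟩ := hP v hv
    obtain ⟨j, hj, hS'⟩ := hP v' hv'
    rw [hS, hS']
    refine hDd i j ?_
    rintro rfl
    exact hne (hi.symm.trans hj)

end Pool.K3F
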