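import Pool.Agent.Work.MP_768e99_five.Interface

/-!
# Five colours for `K_{3,s}`-minor-free graphs: block FIN
-/

set_option autoImplicit false

namespace Pool.K3F

open Pool.Agent.Work.MP_768e99_co

theorem p_FIN (h : Stmt_ALL) : Stmt_FIN := by
  intro d c hc hd V _ G hG
  refine h V G (d + c) d c (c * (c - 1)) ?_ (not_KM_of_not_minor hG)
  obtain ⟨k, rfl⟩ := Nat.exists_eq_add_of_le hc
  have e : 2 + k - 1 = k + 1 := by omega
  refine ⟨rfl, by omega, rfl, hd, ?_, ?_⟩
  · rw [e] at hd
    nlinarith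
  · rw [e] at hd
    nlinarith

end Pool.K3F
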