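import Pool.Agent.Work.MP_768e99_five.Interface

/-! # Block GL: gluing (helper5) -/

set_option autoImplicit false

namespace Pool.K3F

open Pool.Agent.Work.MP_768e99_co

theorem p_GL (h1 : Stmt_CMP) : Stmt_GL := by
  classical
  intro V G S c₁ cF
  refine ⟨fun v => if v ∈ S then cF (Cmp G S v) v else c₁ v, fun v hv => if_neg hv, ?_⟩
  intro F hF v hv
  have hS : v ∈ S := hF.2.1 hv
  have hc : Cmp G S v = F := (h1 V G S).2.1 F hF v hv
  show (if v ∈ S then cF (Cmp G S v) v else c₁ v) = cF F v
  rw [if_pos hS, hc]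

end Pool.K3F
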