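import Pool.Agent.Work.MP_768e99_five.Interface

set_option autoImplicit false

namespace Pool.K3F

open Pool.Agent.Work.MP_768e99_co

lemma HIT_single {V : Type} (G : SimpleGraph V) (f : V) : Conn G {f} := by
  refine ⟨⟨f, rfl⟩, ?_⟩
  intro T hT hne _
  obtain ⟨x, hx⟩ := hne
  have : x = f := hT hx
  subst this
  intro y hy
  rw [Set.mem_singleton_iff.1 hy]
  exact hx

theorem p_HIT (hCMP : Stmt_CMP) : Stmt_HIT := by
  intro V G F Z f hF hf hZ
  by_cases hfZ : f ∈ Z
  · refine ⟨{f}, Set.singleton_subset_iff.2 hf, HIT_single G f, rfl, f, ?_⟩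
    ext x
    simp only [Set.mem_inter_iff, Set.mem_singleton_iff]
    constructor
    · exact fun h => h.1
    · intro h
      subst h
      exact ⟨rfl, hfZ⟩
  have hfFZ : f ∈ F \ Z := ⟨hf, hfZ⟩
  obtain ⟨⟨hDc, hDs, hDcl⟩, hfD⟩ := (hCMP V G (F \ Z)).1 f hfFZ
  set D := Cmp G (F \ Z) f with hD
  have hex : ∃ a ∈ D, ∃ z ∈ F, z ∉ D ∧ G.Adj a z := by
    by_contra hcon
    push Not at hcon
    have h1 : F ⊆ D := by
      refine hF.2 D (fun x hx => (hDs hx).1) ⟨f, hfD⟩ ?_
      intro x hx y hy hxy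
      by_contra hyD
      exact hcon x hx y hy hyD hxy
    obtain ⟨w, hwF, hwZ⟩ := hZ
    exact (hDs (h1 hwF)).2 hwZ
  obtain ⟨a, haD, z, hzF, hzD, haz⟩ := hex
  have hzZ : z ∈ Z := by
    by_contra h
    exact hzD (hDcl a haD z ⟨hzF, h⟩ haz)
  refine ⟨insert z D, ?_, ?_, Set.mem_insert_of_mem _ hfD, z, ?_⟩
  · intro x hx
    rcases Set.mem_insert_iff.1 hx with h | h
    · rw [h]; exact hzF
    · exact (hDs h).1
  · refine ⟨⟨z, Set.mem_insert _ _⟩, ?_⟩
    intro U hU hne hcl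
    have hcase : ∃ x ∈ U, x ∈ D := by
      obtain ⟨x, hx⟩ := hne
      rcases Set.mem_insert_iff.1 (hU hx) with h | h
      · subst h
        exact ⟨a, hcl x hx a (Set.mem_insert_of_mem _ haD) haz.symm, haD⟩
      · exact ⟨x, hx, h⟩
    have hDU : D ⊆ U := by
      have h1 : D ⊆ U ∩ D := by
        refine hDc.2 (U ∩ D) Set.inter_subset_right ?_ ?_
        · obtain ⟨x, hx, hx'⟩ := hcase
          exact ⟨x, hx, hx'⟩
        · intro x hx y hy hxy
          exact ⟨hcl x hx.1 y (Set.mem_insert_of_mem _ hy) hxy, hy⟩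
      exact fun x hx => (h1 hx).1
    intro y hy
    rcases Set.mem_insert_iff.1 hy with h | h
    · rw [h]
      exact hcl a (hDU haD) z (Set.mem_insert _ _) haz
    · exact hDU h
  · ext x
    simp only [Set.mem_inter_iff, Set.mem_insert_iff, Set.mem_singleton_iff]
    constructor
    · rintro ⟨h | h, hxZ⟩
      · exact h
      · exact absurd hxZ (hDs h).2
    · intro h
      subst h
      exact ⟨Or.inl rfl, hzZ⟩

end Pool.K3F
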