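import Pool.Agent.Work.MP_768e99_five.Interface

/-!
# MP_768e99_co, five colours, block HIT2: first hits on both sides
-/

set_option autoImplicit false

namespace Pool.K3F

open Pool.Agent.Work.MP_768e99_co

theorem p_HIT2 (hHIT : Stmt_HIT) : Stmt_HIT2 := by
  intro V G C W₁ W₂ hC _ h1 h2
  obtain ⟨w₁, hw₁C, hw₁⟩ := h1
  obtain ⟨T', hT'C, hT', hw₁T', z₂, hz₂⟩ := hHIT V G C W₂ w₁ hC hw₁C h2
  have hz : z₂ ∈ T' ∩ W₂ := by rw [hz₂]; exact Set.mem_singleton _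
  obtain ⟨T, hTT', hT, hz₂T, z₁, hz₁⟩ := hHIT V G T' W₁ z₂ hT' hz.1 ⟨w₁, hw₁T', hw₁⟩
  refine ⟨T, hTT'.trans hT'C, hT, ⟨z₁, hz₁⟩, z₂, ?_⟩
  apply Set.Subset.antisymm
  · intro x hx
    have : x ∈ T' ∩ W₂ := ⟨hTT' hx.1, hx.2⟩
    rw [hz₂] at this
    exact this
  · intro x hx
    rw [Set.mem_singleton_iff] at hx
    rw [hx]
    exact ⟨hz₂T, hz.2⟩

end Pool.K3F
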