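import Pool.Agent.Work.MP_768e99_five.Interface

/-!
Block K3 of MP_768e99_five (helper46): a biclique minor from three centres and the leaves.
-/

set_option autoImplicit false

namespace Pool.K3F

open Pool.Agent.Work.MP_768e99_co

theorem p_K3 : Stmt_K3 := by
  intro V G s A₁ A₂ A₃ ι hι I B c1 c2 c3 d12 d13 d23 hB hd hs
  obtain ⟨f⟩ : Nonempty (Fin s ↪ I) := by
    have : Fintype I := Fintype.ofFinite I
    apply Function.Embedding.nonempty_of_card_le
    rw [Fintype.card_fin, ← Nat.card_eq_fintype_card, Nat.card_coe_set_eq]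
    exact hs
  refine ⟨![A₁, A₂, A₃], fun j => B (f j), fun i => Set.subset_univ _, fun j => Set.subset_univ _,
    ?_, fun j => (hB _ (f j).2).1, ?_, ?_, ?_, ?_⟩
  · intro i
    fin_cases i
    · exact c1
    · exact c2
    · exact c3
  · intro i i' hne
    fin_cases i <;> fin_cases i'
    · exact absurd rfl hne
    · exact d12
    · exact d13
    · exact d12.symm
    · exact absurd rfl hne
    · exact d23
    · exact d13.symm
    · exact d23.symm
    · exact absurd rfl hne
  · intro j j' hne
    refine hd _ (f j).2 _ (f j').2 fun h => hne (f.injective (Subtype.ext h))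
  · intro i j
    obtain ⟨-, e1, e2, e3, -⟩ := hB _ (f j).2
    fin_cases i
    · exact e1
    · exact e2
    · exact e3
  · intro i j
    obtain ⟨-, -, -, -, ⟨x1, hx1, y1, hy1, a1⟩, ⟨x2, hx2, y2, hy2, a2⟩, ⟨x3, hx3, y3, hy3, a3⟩⟩ :=
      hB _ (f j).2
    fin_cases i
    · exact ⟨y1, hy1, x1, hx1, a1.symm⟩
    · exact ⟨y2, hy2, x2, hx2, a2.symm⟩
    · exact ⟨y3, hy3, x3, hx3, a3.symm⟩

end Pool.K3F
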