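import Pool.Agent.Work.MP_768e99_five.Interface

/-!
# Block KID (MP_768e99_co, helper10)
-/

set_option autoImplicit false

namespace Pool.K3F

open Pool.Agent.Work.MP_768e99_co

theorem p_KID (h1 : Stmt_SIDE) (h2 : Stmt_CMP) : Stmt_KID := by
  intro V G C O Y H P hR hH hC F hF hFO
  have hFC : ∀ x ∈ F, x ∈ C := fun x hx => (hF.2.1 hx).1
  have hFH : ∀ x ∈ F, x ∉ H := fun x hx => (hF.2.1 hx).2
  have hFY : ¬ Tch G F Y := fun h => hC.sep F hF.2.1 hF.1 ⟨hFO, h⟩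
  have hCmp : ∀ v ∈ F, Cmp G (C \ H) v = F := (h2 V G (C \ H)).2.1 F hF
  have hno : ∀ v ∈ F, ¬ Tch G (Cmp G (C \ H) v) Y := fun v hv h => by
    rw [hCmp v hv] at h
    exact hFY h
  have hdY : ∀ v ∈ F, v ∉ Y := fun v hv h => Set.disjoint_left.1 hR.dCY (hFC v hv) h
  have hdRt : Disjoint F (Rt G C H Y) := by
    rw [Set.disjoint_left]
    rintro v hv ((h | h) | h)
    · exact hdY v hv h
    · exact hFH v hv h
    · exact hno v hv h.2
  have htH : ∃ x ∈ F, ∃ y ∈ H, G.Adj x y := by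
    by_contra hcon
    push Not at hcon
    obtain ⟨a, ha⟩ := hH
    have hsub : C ⊆ F := by
      refine hR.conn.2 F hFC hF.1.1 fun x hx y hy hxy => ?_
      by_cases hyH : y ∈ H
      · exact absurd hxy (hcon x hx y hyH)
      · exact hF.2.2 x hx y ⟨hy, hyH⟩ hxy
    exact hFH a (hsub (hC.sub ha)) ha
  refine ⟨⟨hF.1, hR.connO, (h1 V G C O Y H P hR hC).1, ?_, hdRt, ?_, ?_, hFO, ?_⟩, ?_⟩
  · exact Set.disjoint_left.2 fun v hv h => Set.disjoint_left.1 hR.dCO (hFC v hv) h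
  · rw [Set.disjoint_left]
    rintro v hv ((h | h) | h)
    · exact Set.disjoint_left.1 hR.dOY hv h
    · exact Set.disjoint_left.1 hR.dCO (hC.sub h) hv
    · exact Set.disjoint_left.1 hR.dCO h.1.1 hv
  · intro x hx u hxu
    rcases hR.out x (hFC x hx) u hxu with h | h | h
    · by_cases huH : u ∈ H
      · exact Or.inr (Or.inr (Or.inl (Or.inr huH)))
      · exact Or.inl (hF.2.2 x hx u ⟨h, huH⟩ hxu)
    · exact Or.inr (Or.inl h)
    · exact Or.inr (Or.inr (Or.inl (Or.inl h)))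
  · obtain ⟨x, hx, y, hy, hxy⟩ := htH
    exact ⟨x, hx, y, Or.inl (Or.inr hy), hxy⟩
  · rintro x hx u ((h | h) | h) hxu
    · exact absurd ⟨x, hx, u, h, hxu⟩ hFY
    · exact h
    · exact absurd h.2 (hno u (hF.2.2 x hx u h.1 hxu))

end Pool.K3F
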