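import Pool.Agent.Work.MP_768e99_five.Interface

/-! Block KID0. -/

set_option autoImplicit false

namespace Pool.K3F

open Pool.Agent.Work.MP_768e99_co

theorem p_KID0 (h1 : Stmt_CMP) : Stmt_KID0 := by
  intro V G C O Y H P hR _hcut F hF hO hY
  obtain ⟨-, c2, -, -⟩ := h1 V G (C \ H)
  constructor
  · rw [Set.disjoint_left]
    intro v hv hvR
    have hvC := hF.2.1 hv
    rcases hvR with (h | h) | h
    · exact Set.disjoint_left.1 hR.dCY hvC.1 h
    · exact hvC.2 h
    · apply hY
      have := h.2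
      rw [c2 F hF v hv] at this
      exact this
  · intro x hx u hu
    have hxC := hF.2.1 hx
    rcases hR.out x hxC.1 u hu with h | h | h
    · by_cases hH : u ∈ H
      · exact Or.inr hH
      · exact Or.inl (hF.2.2 x hx u ⟨h, hH⟩ hu)
    · exact absurd ⟨x, hx, u, h, hu⟩ hO
    · exact absurd ⟨x, hx, u, h, hu⟩ hY

end Pool.K3F
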