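import Pool.Agent.Work.MP_768e99_five.Interface

set_option autoImplicit false

namespace Pool.K3F

open Pool.Agent.Work.MP_768e99_co

theorem KST_off {V : Type} (c₀ : V → Fin 5) (H RH : Set V) (f g : Fin 5) (hR : RH ⊆ H) (v : V)
    (hv : v ∉ H) : paint c₀ H RH f g v = c₀ v := by
  have h1 : v ∉ RH := fun h => hv (hR h)
  simp [paint, h1, hv]

theorem KST_f {V : Type} (c₀ : V → Fin 5) (H RH : Set V) (f g : Fin 5) (v : V)
    (hv : v ∈ H) (h1 : v ∉ RH) : paint c₀ H RH f g v = f := by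
  simp [paint, h1, hv]

theorem KST_g {V : Type} (c₀ : V → Fin 5) (H RH : Set V) (f g : Fin 5) (v : V)
    (hv : v ∈ RH) : paint c₀ H RH f g v = g := by
  simp [paint, hv]

theorem KST_one (hKID : Stmt_KID) (V : Type) (G : SimpleGraph V) (K : ℕ)
    (C O Y H RH : Set V) (P : V → Set V) (c₀ : V → Fin 5) (f g : Fin 5) (hreg : Reg G C O Y)
    (hvO : ∃ o o' : Fin 5, ∀ x ∈ C, ∀ u ∈ O, G.Adj x u → c₀ u = o ∨ c₀ u = o')
    (hne : H.Nonempty) (hcut : IsCut G O Y C H P) (hRH : RH ⊆ H) (hcard : RH.ncard ≤ K)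
    (F : Set V) (hF : IsCmp G (C \ H) F) (hFO : Tch G F O) :
    St G K F O (Rt G C H Y) RH (paint c₀ H RH f g) := by
  obtain ⟨hr, hvis⟩ := hKID V G C O Y H P hreg hne hcut F hF hFO
  refine ⟨hr, ?_, ?_, ?_, hcard⟩
  · obtain ⟨o, o', ho⟩ := hvO
    refine ⟨o, o', fun x hx u hu hxu => ?_⟩
    have huH : u ∉ H := fun h => Set.disjoint_left.1 hreg.dCO (hcut.sub h) hu
    rw [KST_off c₀ H RH f g hRH u huH]
    exact ho x (hF.2.1 hx).1 u hu hxu
  · refine ⟨f, g, fun x hx u hu hxu => ⟨fun h => ?_, fun h => ?_⟩⟩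
    · exact KST_f c₀ H RH f g u (hvis x hx u hu hxu) h
    · exact KST_g c₀ H RH f g u h
  · intro v hv
    exact Or.inl (Or.inr (hRH hv))

theorem p_KST (hKID : Stmt_KID) (hKID0 : Stmt_KID0) (hSIDE : Stmt_SIDE) : Stmt_KST := by
  intro V G K C O Y R H RH P c₀ f g hSt hne hcut hRH hcard
  refine ⟨fun F hF hFO => ?_, fun F hF hFY => ?_, fun F hF hFO hFY => ?_⟩
  · exact KST_one hKID V G K C O Y H RH P c₀ f g hSt.reg hSt.vO hne hcut hRH hcard F hF hFO
  · refine KST_one hKID V G K C Y O H RH P c₀ f g hSt.reg.symm ?_ hne hcut.symm hRH hcard F hF hFY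
    obtain ⟨y, y', hy⟩ := hSt.vY
    refine ⟨y, y', fun x hx u hu hxu => ?_⟩
    by_cases h : u ∈ R
    · exact Or.inr ((hy x hx u hu hxu).2 h)
    · exact Or.inl ((hy x hx u hu hxu).1 h)
  · obtain ⟨hd, hvis⟩ := hKID0 V G C O Y H P hSt.reg hcut F hF hFO hFY
    refine ⟨hF.1, Or.inr (hSIDE V G C O Y H P hSt.reg hcut).1, hd, ?_, ?_⟩
    · intro x hx u hxu
      rcases hvis x hx u hxu with h | h
      · exact Or.inl h
      · exact Or.inr (Or.inl (Or.inr h))
    · refine ⟨f, g, fun x hx u hu hxu => ?_⟩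
      rcases hvis x hx u hxu with h | h
      · exact absurd hu (Set.disjoint_left.1 hd h)
      · by_cases h' : u ∈ RH
        · exact Or.inr (KST_g c₀ H RH f g u h')
        · exact Or.inl (KST_f c₀ H RH f g u h h')

end Pool.K3F
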