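import Pool.Agent.Work.MP_768e99_five.Interface

/-!
# Five colours for `K_{3,s}`-minor-free graphs: block `LNK`
-/

set_option autoImplicit false

namespace Pool.K3F

open Pool.Agent.Work.MP_768e99_co

theorem LNK_single {V : Type} (G : SimpleGraph V) (x : V) : Conn G {x} := by
  refine ⟨⟨x, rfl⟩, ?_⟩
  rintro T hT ⟨y, hy⟩ _ z hz
  have h1 : y = x := hT hy
  have h2 : z = x := hz
  rw [h2, ← h1]
  exact hy

/-- A vertex of the cut lies only in its own set. -/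
theorem LNK_own {V : Type} {G : SimpleGraph V} {C O Y H : Set V} {P : V → Set V}
    (hcut : IsCut G O Y C H P) {x y : V} (hx : x ∈ H) (hy : y ∈ H) (h : x ∈ P y) : x = y := by
  have h7 : x ∈ P y ∩ H := ⟨h, hx⟩
  rw [(hcut.path y hy).2.2.2.1] at h7
  exact h7

/-- The connected set from `x₁` to the point `z` of `W₁`. -/
theorem LNK_side (hCN1 : Stmt_CN1) {V : Type} {G : SimpleGraph V} {C O Y H : Set V}
    {P : V → Set V} (hcut : IsCut G O Y C H P) {x₁ x₂ : V} (hx₁ : x₁ ∈ H)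
    (hna : ¬ G.Adj x₁ x₂) {z : V} (hz : z = x₁ ∨ ∃ y ∈ nb G x₁ H, z ∈ P y) :
    ∃ (Q : Set V) (y₁ : V), Q ⊆ C ∧ Conn G Q ∧ x₁ ∈ Q ∧ z ∈ Q ∧
      ∀ y ∈ nb G x₁ H ∪ nb G x₂ H, y ≠ y₁ → Disjoint Q (P y) := by
  have hx1 : ∀ y ∈ nb G x₁ H ∪ nb G x₂ H, x₁ ∉ P y := by
    rintro y (⟨hy, hadj⟩ | ⟨hy, hadj⟩) h
    · have e := LNK_own hcut hx₁ hy h
      rw [e] at hadj
      exact G.irrefl hadj
    · have e := LNK_own hcut hx₁ hy h
      rw [← e] at hadj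
      exact hna hadj.symm
  have hH : ∀ y ∈ nb G x₁ H ∪ nb G x₂ H, y ∈ H := by
    rintro y (⟨hy, -⟩ | ⟨hy, -⟩) <;> exact hy
  rcases hz with hz | ⟨y₁, hy₁, hz⟩
  · refine ⟨{x₁}, x₁, ?_, LNK_single G x₁, rfl, hz, ?_⟩
    · rintro w rfl
      exact hcut.sub hx₁
    · intro y hy _
      rw [Set.disjoint_singleton_left]
      exact hx1 y hy
  · obtain ⟨h1, h2, h3, h4, h5, h6⟩ := hcut.path y₁ hy₁.1
    refine ⟨{x₁} ∪ P y₁, y₁, ?_, ?_, Or.inl rfl, Or.inr hz, ?_⟩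
    · rintro w (rfl | hw)
      · exact hcut.sub hx₁
      · exact h3 hw
    · exact hCN1 V G {x₁} (P y₁) (LNK_single G x₁) h1 (Or.inl ⟨x₁, rfl, y₁, h2, hy₁.2⟩)
    · intro y hy hne
      rw [Set.disjoint_union_left]
      refine ⟨?_, hcut.dj y₁ hy₁.1 y (hH y hy) (Ne.symm hne)⟩
      rw [Set.disjoint_singleton_left]
      exact hx1 y hy

theorem p_LNK (hHIT2 : Stmt_HIT2) (hCN1 : Stmt_CN1) : Stmt_LNK := by
  intro V _ G C O Y H P hreg hcut x₁ hx₁ x₂ hx₂ hne hna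
  have hna' : ¬ G.Adj x₂ x₁ := fun h => hna h.symm
  by_cases hcom : ∃ y, y ∈ nb G x₁ H ∧ y ∈ nb G x₂ H
  · obtain ⟨y, hy1, hy2⟩ := hcom
    obtain ⟨Q, y₁, hQC, hQ, hxQ, hzQ, hQd⟩ := LNK_side hCN1 hcut (x₂ := x₂) hx₁ hna
      (z := y) (Or.inr ⟨y, hy1, (hcut.path y hy1.1).2.1⟩)
    obtain ⟨h1, h2, h3, h4, h5, h6⟩ := hcut.path y hy1.1
    have hc1 : Conn G ({x₁} ∪ P y) :=
      hCN1 V G {x₁} (P y) (LNK_single G x₁) h1 (Or.inl ⟨x₁, rfl, y, h2, hy1.2⟩)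
    have hc2 : Conn G (({x₁} ∪ P y) ∪ {x₂}) :=
      hCN1 V G ({x₁} ∪ P y) {x₂} hc1 (LNK_single G x₂)
        (Or.inl ⟨y, Or.inr h2, x₂, rfl, hy2.2.symm⟩)
    refine ⟨({x₁} ∪ P y) ∪ {x₂}, ?_, hc2, Or.inl (Or.inl rfl), Or.inr rfl, y, y, ?_⟩
    · rintro w ((rfl | hw) | rfl)
      · exact hcut.sub hx₁
      · exact h3 hw
      · exact hcut.sub hx₂
    · intro y' hy' hney _
      have hy'H : y' ∈ H := by
        rcases hy' with h | h
        · exact h.1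
        · exact h.1
      have hn1 : x₁ ∉ P y' := by
        intro h
        have e := LNK_own hcut hx₁ hy'H h
        rcases hy' with hh | hh
        · have h9 := hh.2
          rw [← e] at h9
          exact G.irrefl h9
        · have h9 := hh.2
          rw [← e] at h9
          exact hna' h9
      have hn2 : x₂ ∉ P y' := by
        intro h
        have e := LNK_own hcut hx₂ hy'H h
        rcases hy' with hh | hh
        · have h9 := hh.2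
          rw [← e] at h9
          exact hna h9
        · have h9 := hh.2
          rw [← e] at h9
          exact G.irrefl h9
      rw [Set.disjoint_union_left, Set.disjoint_union_left]
      refine ⟨⟨?_, hcut.dj y hy1.1 y' hy'H (Ne.symm hney)⟩, ?_⟩
      · rw [Set.disjoint_singleton_left]
        exact hn1
      · rw [Set.disjoint_singleton_left]
        exact hn2
  · let W₁ : Set V := {z | z = x₁ ∨ ∃ y ∈ nb G x₁ H, z ∈ P y}
    let W₂ : Set V := {z | z = x₂ ∨ ∃ y ∈ nb G x₂ H, z ∈ P y}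
    have hdis : Disjoint W₁ W₂ := by
      rw [Set.disjoint_left]
      rintro z (hz | ⟨y, hy, hz⟩) (hz' | ⟨y', hy', hz'⟩)
      · exact hne (hz.symm.trans hz')
      · rw [hz] at hz'
        have e := LNK_own hcut hx₁ hy'.1 hz'
        have h9 := hy'.2
        rw [← e] at h9
        exact hna' h9
      · rw [hz'] at hz
        have e := LNK_own hcut hx₂ hy.1 hz
        have h9 := hy.2
        rw [← e] at h9
        exact hna h9
      · by_cases e : y = y'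
        · rw [← e] at hy'
          exact hcom ⟨y, hy, hy'⟩
        · exact Set.disjoint_left.mp (hcut.dj y hy.1 y' hy'.1 e) hz hz'
    obtain ⟨T, hTC, hT, ⟨z₁, hz₁⟩, ⟨z₂, hz₂⟩⟩ := hHIT2 V G C W₁ W₂ hreg.conn hdis
      ⟨x₁, hcut.sub hx₁, Or.inl rfl⟩ ⟨x₂, hcut.sub hx₂, Or.inl rfl⟩
    have hz1 : z₁ ∈ T ∩ W₁ := by
      rw [hz₁]
      rfl
    have hz2 : z₂ ∈ T ∩ W₂ := by
      rw [hz₂]
      rfl
    obtain ⟨Q₁, y₁, hQC₁, hQ₁, hxQ₁, hzQ₁, hQd₁⟩ := LNK_side hCN1 hcut (x₂ := x₂) hx₁ hna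
      (z := z₁) hz1.2
    obtain ⟨Q₂, y₂, hQC₂, hQ₂, hxQ₂, hzQ₂, hQd₂⟩ := LNK_side hCN1 hcut (x₂ := x₁) hx₂ hna'
      (z := z₂) hz2.2
    have hc1 : Conn G (Q₁ ∪ T) := hCN1 V G Q₁ T hQ₁ hT (Or.inr ⟨z₁, hzQ₁, hz1.1⟩)
    have hc2 : Conn G ((Q₁ ∪ T) ∪ Q₂) :=
      hCN1 V G (Q₁ ∪ T) Q₂ hc1 hQ₂ (Or.inr ⟨z₂, Or.inr hz2.1, hzQ₂⟩)
    refine ⟨(Q₁ ∪ T) ∪ Q₂, ?_, hc2, Or.inl (Or.inl hxQ₁), Or.inr hxQ₂, y₁, y₂, ?_⟩
    · rintro w ((hw | hw) | hw)
      · exact hQC₁ hw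
      · exact hTC hw
      · exact hQC₂ hw
    · intro y hy hne₁ hne₂
      have hy' : y ∈ nb G x₂ H ∪ nb G x₁ H := hy.symm
      have hd1 := hQd₁ y hy hne₁
      have hd2 := hQd₂ y hy' hne₂
      rw [Set.disjoint_union_left, Set.disjoint_union_left]
      refine ⟨⟨hd1, ?_⟩, hd2⟩
      rw [Set.disjoint_left]
      intro w hwT hwP
      rcases hy with hy | hy
      · have hw : w ∈ T ∩ W₁ := ⟨hwT, Or.inr ⟨y, hy, hwP⟩⟩
        rw [hz₁] at hw
        have e : w = z₁ := hw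
        rw [e] at hwP
        exact Set.disjoint_left.mp hd1 hzQ₁ hwP
      · have hw : w ∈ T ∩ W₂ := ⟨hwT, Or.inr ⟨y, hy, hwP⟩⟩
        rw [hz₂] at hw
        have e : w = z₂ := hw
        rw [e] at hwP
        exact Set.disjoint_left.mp hd2 hzQ₂ hwP

end Pool.K3F
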