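import Pool.Agent.Work.MP_768e99_five.Interface

/-!
# Block NC (helper4)
-/

set_option autoImplicit false

namespace Pool.K3F

open Pool.Agent.Work.MP_768e99_co

theorem p_NC (h1 : Stmt_CMP) : Stmt_NC := by
  intro V G d K C O Y R H RH P c₀ c f g h x hx u hu hadj hc
  have hcu : c u = c₀ u := h.off u hu
  by_cases hR : x ∈ RH
  · have hg : c x = g := h.cg x hR
    have h2 := h.gvis x hx u hu hadj (by rw [← hcu, hc, hg])
    exact ⟨hR, h2.1, by rw [hc, hg], h2.2⟩
  · exfalso
    by_cases hH : x ∈ H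
    · have hf : c x = f := h.cf x ⟨hH, hR⟩
      exact h.fvis x hx u hu hadj (by rw [← hcu, hc, hf])
    · have hS : x ∈ C \ H := ⟨hx, hH⟩
      obtain ⟨hF, hxF⟩ := (h1 V G (C \ H)).1 x hS
      have huF : u ∉ Cmp G (C \ H) x := fun hh => hu (hF.2.1 hh).1
      have hRC : ∀ v ∈ RH, v ∈ C := fun v hv => h.cut.sub (h.sub hv)
      by_cases hO : Tch G (Cmp G (C \ H) x) O
      · exact hu (hRC u ((h.kidO _ hF hO).conf x hxF u huF hadj hc))
      · by_cases hY : Tch G (Cmp G (C \ H) x) Y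
        · exact hu (hRC u ((h.kidY _ hF hY).conf x hxF u huF hadj hc))
        · exact (h.kid0 _ hF hO hY).conf x hxF u huF hadj hc

end Pool.K3F
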