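import Pool.Agent.Work.MP_768e99_five.Interface

set_option autoImplicit false

namespace Pool.K3F

open Pool.Agent.Work.MP_768e99_co

theorem ND_off {V : Type} (c₀ : V → Fin 5) (H RH : Set V) (f g : Fin 5) (hR : RH ⊆ H) (v : V)
    (hv : v ∉ H) : paint c₀ H RH f g v = c₀ v := by
  have h1 : v ∉ RH := fun h => hv (hR h)
  simp [paint, h1, hv]

theorem ND_f {V : Type} (c₀ : V → Fin 5) (H RH : Set V) (f g : Fin 5) (v : V)
    (hv : v ∈ H) (h1 : v ∉ RH) : paint c₀ H RH f g v = f := by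
  simp [paint, h1, hv]

theorem ND_g {V : Type} (c₀ : V → Fin 5) (H RH : Set V) (f g : Fin 5) (v : V)
    (hv : v ∈ RH) : paint c₀ H RH f g v = g := by
  simp [paint, hv]

theorem p_ND (hKST : Stmt_KST) (hGL : Stmt_GL) (hTR : Stmt_TR) (_hCMP : Stmt_CMP) : Stmt_ND := by
  classical
  intro V _ G d K C O Y R H RH P c₀ f g hst hne hcut hRH hcard hdM hdR hfg hfv hgv ih2 ih1
  obtain ⟨kO, kY, k0⟩ := hKST V G K C O Y R H RH P c₀ f g hst hne hcut hRH hcard
  have hlt : ∀ F, IsCmp G (C \ H) F → F.ncard < C.ncard := by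
    intro F hF
    apply Set.ncard_lt_ncard _ (Set.toFinite C)
    refine ⟨fun v hv => (hF.2.1 hv).1, fun hsub => ?_⟩
    obtain ⟨h, hh⟩ := hne
    exact (hF.2.1 (hsub (hcut.sub hh))).2 hh
  have hex : ∀ F : Set V, ∃ c' : V → Fin 5, IsCmp G (C \ H) F →
      (Tch G F O → Good2 G d K F O (Rt G C H Y) RH (paint c₀ H RH f g) c') ∧
      (Tch G F Y → Good2 G d K F Y (Rt G C H O) RH (paint c₀ H RH f g) c') ∧
      (¬ Tch G F O → ¬ Tch G F Y → Good1 G d F (paint c₀ H RH f g) c') := by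
    intro F
    by_cases hF : IsCmp G (C \ H) F
    · by_cases hO : Tch G F O
      · have hY : ¬ Tch G F Y := fun hY => hcut.sep F hF.2.1 hF.1 ⟨hO, hY⟩
        obtain ⟨c', hc'⟩ := ih2 F O _ RH _ (hlt F hF) (kO F hF hO)
        exact ⟨c', fun _ => ⟨fun _ => hc', fun h => absurd h hY, fun h => absurd hO h⟩⟩
      · by_cases hY : Tch G F Y
        · obtain ⟨c', hc'⟩ := ih2 F Y _ RH _ (hlt F hF) (kY F hF hY)
          exact ⟨c', fun _ => ⟨fun h => absurd h hO, fun _ => hc', fun _ h => absurd hY h⟩⟩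
        · obtain ⟨c', hc'⟩ := ih1 F _ _ (hlt F hF) (k0 F hF hO hY)
          exact ⟨c', fun _ => ⟨fun h => absurd h hO, fun h => absurd h hY, fun _ _ => hc'⟩⟩
    · exact ⟨c₀, fun h => absurd h hF⟩
  choose cF hcF using hex
  obtain ⟨c, hc1, hc2⟩ := hGL V G (C \ H) (paint c₀ H RH f g) cF
  have hoff : ∀ F, IsCmp G (C \ H) F → ∀ v, v ∉ F → cF F v = paint c₀ H RH f g v := by
    intro F hF v hv
    obtain ⟨g1, g2, g3⟩ := hcF F hF
    by_cases hO : Tch G F O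
    · exact (g1 hO).off v hv
    · by_cases hY : Tch G F Y
      · exact (g2 hY).off v hv
      · exact (g3 hO hY).off v hv
  have hnb : ∀ F, IsCmp G (C \ H) F → ∀ x ∈ F, ∀ u, G.Adj x u → c u = cF F u := by
    intro F hF x hx u hxu
    by_cases hu : u ∈ F
    · exact hc2 F hF u hu
    · have hu' : u ∉ C \ H := fun h => hu (hF.2.2 x hx u h hxu)
      rw [hc1 u hu', hoff F hF u hu]
  have hRc : ∀ F, IsCmp G (C \ H) F → ∀ u ∈ RH, c u = cF F u := by
    intro F hF u hu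
    have hu1 : u ∉ C \ H := fun h => h.2 (hRH hu)
    have hu2 : u ∉ F := fun h => hu1 (hF.2.1 h)
    rw [hc1 u hu1, hoff F hF u hu2]
  refine ⟨c, ⟨hst, hne, hcut, hRH, hcard, hdM, hdR, hfg, ?_, ?_, ?_, hfv, hgv, ?_, ?_, ?_⟩⟩
  · intro v hv
    rw [hc1 v (fun h => h.2 hv.1), ND_f c₀ H RH f g v hv.1 hv.2]
  · intro v hv
    rw [hc1 v (fun h => h.2 (hRH hv)), ND_g c₀ H RH f g v hv]
  · intro v hv
    rw [hc1 v (fun h => hv h.1), ND_off c₀ H RH f g hRH v (fun h => hv (hcut.sub h))]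
  · intro F hF hO
    exact (hTR V G d F (paint c₀ H RH f g) (cF F) c (hc2 F hF) (hnb F hF)).1 K O _ RH (hRc F hF)
      ((hcF F hF).1 hO)
  · intro F hF hY
    exact (hTR V G d F (paint c₀ H RH f g) (cF F) c (hc2 F hF) (hnb F hF)).1 K Y _ RH (hRc F hF)
      ((hcF F hF).2.1 hY)
  · intro F hF hO hY
    exact (hTR V G d F (paint c₀ H RH f g) (cF F) c (hc2 F hF) (hnb F hF)).2
      ((hcF F hF).2.2 hO hY)

end Pool.K3F
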