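import Pool.Agent.Work.MP_768e99_five.Interface

/-! # Block NG: a node gives a good extension -/

set_option autoImplicit false

namespace Pool.K3F

open Pool.Agent.Work.MP_768e99_co

theorem p_NG (hNC : Stmt_NC) (hNM : Stmt_NM) (hNR : Stmt_NR) (hBST : Stmt_BST) : Stmt_NG := by
  intro V _ G s d c K C O Y R H RH P c₀ col f g hpar hfree hN
  have hnc := hNC V G d K C O Y R H RH P c₀ col f g hN
  have hRC : ∀ u ∈ R, u ∉ C := fun u hu huC =>
    Set.disjoint_left.1 hN.st.reg.dCY huC (hN.st.sub hu)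
  refine ⟨hN.off, ?_, ?_, ?_, ?_⟩
  · intro x hx
    by_cases h : x ∈ RH
    · exact hNR V G s d c K C O Y R H RH P c₀ col f g hpar hfree hN x h
    · exact hNM V G d K C O Y R H RH P c₀ col f g hN x hx h
  · intro x hx u hu hxu hcu
    exact (hnc x hx u hu hxu hcu).2.1
  · intro u hu
    refine le_trans (Set.ncard_le_ncard ?_ (Set.toFinite RH)) hN.card
    rintro x ⟨hx, hux, hcx⟩
    exact (hnc x hx u (hRC u hu) hux.symm hcx.symm).1
  · rintro u hu ⟨x, hx, hux, hcx⟩
    obtain ⟨h1, -, -, h4⟩ := hnc x hx u (hRC u hu) hux.symm hcx.symm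
    exact ⟨h4, x, nb G x H, P, hux,
      hBST V G d C O Y H P hN.cut x (hN.sub h1) (hN.degR x h1)⟩

end Pool.K3F
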