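import Pool.Agent.Work.MP_768e99_five.Interface

set_option autoImplicit false

namespace Pool.K3F

open Pool.Agent.Work.MP_768e99_co

theorem p_NM (hNC : Stmt_NC) (hCMP : Stmt_CMP) : Stmt_NM := by
  intro V _ G d K C O Y R H RH P c₀ c f g nd x hxC hxR
  obtain ⟨k1, -, -, -⟩ := hCMP V G (C \ H)
  by_cases hxH : x ∈ H
  · have hx : x ∈ H \ RH := ⟨hxH, hxR⟩
    have hcx := nd.cf x hx
    have hsub : {y | G.Adj x y ∧ c y = c x} ⊆ nb G x (H \ RH) := by
      rintro y ⟨hy, hcy⟩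
      refine ⟨?_, hy⟩
      have hyC : y ∈ C := by
        by_contra hyC
        exact hxR (hNC V G d K C O Y R H RH P c₀ c f g nd x hxC y hyC hy hcy).1
      have hyR : y ∉ RH := by
        intro hyR
        apply nd.fg
        rw [← hcx, ← hcy, nd.cg y hyR]
      refine ⟨?_, hyR⟩
      by_contra hyH
      obtain ⟨c1, c2⟩ := k1 y ⟨hyC, hyH⟩
      have hxF : x ∉ Cmp G (C \ H) y := fun h => (c1.2.1 h).2 hxH
      by_cases tO : Tch G (Cmp G (C \ H) y) O
      · exact hxR ((nd.kidO _ c1 tO).conf y c2 x hxF hy.symm hcy.symm)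
      · by_cases tY : Tch G (Cmp G (C \ H) y) Y
        · exact hxR ((nd.kidY _ c1 tY).conf y c2 x hxF hy.symm hcy.symm)
        · exact (nd.kid0 _ c1 tO tY).conf y c2 x hxF hy.symm hcy.symm
    exact (Set.ncard_le_ncard hsub (Set.toFinite _)).trans (nd.degM x hx)
  · obtain ⟨c1, c2⟩ := k1 x ⟨hxC, hxH⟩
    by_cases tO : Tch G (Cmp G (C \ H) x) O
    · exact (nd.kidO _ c1 tO).defect x c2
    · by_cases tY : Tch G (Cmp G (C \ H) x) Y
      · exact (nd.kidY _ c1 tY).defect x c2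
      · exact (nd.kid0 _ c1 tO tY).defect x c2

end Pool.K3F
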