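import Pool.Agent.Work.MP_768e99_five.Interface

/-!
# NR: the defect of a special vertex
-/

set_option autoImplicit false

namespace Pool.K3F

open Pool.Agent.Work.MP_768e99_co

theorem p_NR (h1 : Stmt_NC) (h2 : Stmt_SDC) (h3 : Stmt_CMP) : Stmt_NR := by
  intro V _ G s d c K C O Y R H RH P c₀ col f g hP hF hN x hx
  have hxH : x ∈ H := hN.sub hx
  have hxC : x ∈ C := hN.cut.sub hxH
  have hcx : col x = g := hN.cg x hx
  have bO := h2 V G s d c K C O Y H RH P col hP hF hN.st.reg hN.ne hN.cut hN.sub hN.kidO x hx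
  have bY := h2 V G s d c K C Y O H RH P col hP hF hN.st.reg.symm hN.ne hN.cut.symm hN.sub
    hN.kidY x hx
  set AO : Set V :=
    {y | y ∈ C \ H ∧ Tch G (Cmp G (C \ H) y) O ∧ G.Adj x y ∧ col y = col x} with hAO
  set AY : Set V :=
    {y | y ∈ C \ H ∧ Tch G (Cmp G (C \ H) y) Y ∧ G.Adj x y ∧ col y = col x} with hAY
  have hsub : {y | G.Adj x y ∧ col y = col x} ⊆ (R ∪ (RH \ {x})) ∪ (AO ∪ AY) := by
    rintro y ⟨hxy, hc⟩
    by_cases hyC : y ∈ C
    · by_cases hyH : y ∈ H
      · by_cases hyR : y ∈ RH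
        · refine Or.inl (Or.inr ⟨hyR, ?_⟩)
          intro e
          rw [Set.mem_singleton_iff] at e
          rw [e] at hxy
          exact G.loopless.irrefl x hxy
        · exfalso
          have := hN.cf y ⟨hyH, hyR⟩
          rw [hc, hcx] at this
          exact hN.fg this.symm
      · right
        obtain ⟨hCmp, hyF⟩ := (h3 V G (C \ H)).1 y ⟨hyC, hyH⟩
        by_cases tO : Tch G (Cmp G (C \ H) y) O
        · exact Or.inl ⟨⟨hyC, hyH⟩, tO, hxy, hc⟩
        · by_cases tY : Tch G (Cmp G (C \ H) y) Y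
          · exact Or.inr ⟨⟨hyC, hyH⟩, tY, hxy, hc⟩
          · exfalso
            have hg := hN.kid0 _ hCmp tO tY
            exact hg.conf y hyF x (fun hxF => (hCmp.2.1 hxF).2 hxH) hxy.symm hc.symm
    · exact Or.inl (Or.inl (h1 V G d K C O Y R H RH P c₀ col f g hN x hxC y hyC hxy hc).2.1)
  have fin : ∀ S : Set V, S.Finite := fun S => Set.toFinite S
  have c1 := Set.ncard_le_ncard hsub (fin _)
  have c2 := Set.ncard_union_le (R ∪ (RH \ {x})) (AO ∪ AY)
  have c3 := Set.ncard_union_le R (RH \ {x})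
  have c4 := Set.ncard_union_le AO AY
  have c5 := Set.ncard_sdiff_singleton_of_mem hx
  have c6 : 0 < RH.ncard := (Set.ncard_pos (fin _)).2 ⟨x, hx⟩
  have c7 := hN.card
  have c8 := hN.st.card
  have c9 := hP.2.2.2.1
  omega

end Pool.K3F
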