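import Pool.Agent.Work.MP_768e99_five.Interface

/-! Block QUAD. -/

set_option autoImplicit false

namespace Pool.K3F

open Pool.Agent.Work.MP_768e99_co

theorem p_QUAD (h1 : Stmt_PAIR) (h2 : Stmt_K3) (h3 : Stmt_CN1) : Stmt_QUAD := by
  intro V _ G s d c K C O Y H P hpar hfree hR hcut T hTH hTdeg hTadj
  obtain ⟨hs, hc1, -, -, hcc, -⟩ := hpar
  by_contra hcon
  have hcon' : c + 1 ≤ T.ncard := by omega
  obtain ⟨T', hT'T, hT'c⟩ := Set.exists_subset_card_eq hcon'
  have hT'ne : T'.Nonempty := by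
    rw [← Set.ncard_pos (Set.toFinite _)]
    omega
  obtain ⟨x₀, hx₀⟩ := hT'ne
  set T'' : Set V := T' \ {x₀} with hT''
  have hT''c : T''.ncard = c := by
    rw [hT'', Set.ncard_diff_singleton_of_mem hx₀, hT'c]
    rfl
  have hx₀T : x₀ ∈ T := hT'T hx₀
  have hx₀H : x₀ ∈ H := hTH hx₀T
  have hT''T : ∀ x ∈ T'', x ∈ T ∧ x ≠ x₀ := fun x hx => ⟨hT'T hx.1, fun h => hx.2 h⟩
  -- the differences are small
  have hdiff : ∀ x ∈ T'', (nb G x₀ H \ nb G x H).ncard ≤ c := by
    intro x hx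
    have hxT := (hT''T x hx).1
    have a1 := h1 V G s C O Y H P hfree hR hcut x₀ hx₀H x (hTH hxT) (hT''T x hx).2.symm
      (hTadj x₀ hx₀T x hxT)
    have a2 := hTdeg x hxT
    have a3 : (nb G x₀ H \ nb G x H).ncard + (nb G x H).ncard =
        (nb G x₀ H ∪ nb G x H).ncard :=
      Set.ncard_diff_add_ncard _ _ (Set.toFinite _) (Set.toFinite _)
    omega
  -- a common neighbour
  have hu : ∃ u ∈ nb G x₀ H, ∀ x ∈ T'', u ∈ nb G x H := by
    by_contra hno
    push Not at hno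
    have hsub : nb G x₀ H ⊆ ⋃ x ∈ (Set.toFinite T'').toFinset, (nb G x₀ H \ nb G x H) := by
      intro u hu
      obtain ⟨x, hx, hux⟩ := hno u hu
      simp only [Set.Finite.mem_toFinset, Set.mem_iUnion]
      exact ⟨x, hx, hu, hux⟩
    have a1 : (nb G x₀ H).ncard ≤
        ∑ x ∈ (Set.toFinite T'').toFinset, (nb G x₀ H \ nb G x H).ncard :=
      (Set.ncard_le_ncard hsub (Set.toFinite _)).trans (Finset.set_ncard_biUnion_le _ _)
    have a2 : ∑ x ∈ (Set.toFinite T'').toFinset, (nb G x₀ H \ nb G x H).ncard ≤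
        ∑ x ∈ (Set.toFinite T'').toFinset, c :=
      Finset.sum_le_sum fun x hx => hdiff x ((Set.Finite.mem_toFinset _).1 hx)
    rw [Finset.sum_const, ← Set.ncard_eq_toFinset_card T'' (Set.toFinite _), hT''c,
      smul_eq_mul] at a2
    have a3 := hTdeg x₀ hx₀T
    omega
  obtain ⟨u, hu0, huT⟩ := hu
  have huH : u ∈ H := hu0.1
  have hPu := hcut.path u huH
  -- the leaves
  set I : Set V := (nb G x₀ H \ {u}) ∪ T'' with hI
  have hIH : ∀ y ∈ I, y ∈ H := by
    rintro y (h | h)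
    · exact h.1.1
    · exact hTH (hT''T y h).1
  have hIu : ∀ y ∈ I, u ≠ y := by
    rintro y (h | h)
    · exact fun e => h.2 e.symm
    · exact fun e => by
        have := (huT y h).2
        rw [e] at this
        exact G.loopless.irrefl _ this
  have hIx : ∀ y ∈ I, x₀ ≠ y := by
    rintro y (h | h)
    · exact fun e => by
        have := h.1.2
        rw [e] at this
        exact G.loopless.irrefl _ this
    · exact (hT''T y h).2.symm
  have hPC : ∀ y ∈ H, P y ⊆ C := fun y hy => (hcut.path y hy).2.2.1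
  have hdO : ∀ y ∈ H, Disjoint O (P y) := fun y hy =>
    (hR.dCO.mono_left (hPC y hy)).symm
  have hdY : ∀ y ∈ H, Disjoint Y (P y) := fun y hy =>
    (hR.dCY.mono_left (hPC y hy)).symm
  have hxC : ({x₀} : Set V) ⊆ C := by
    intro v hv
    rw [Set.mem_singleton_iff] at hv
    rw [hv]
    exact hcut.sub hx₀H
  have hA1C : ({x₀} ∪ P u : Set V) ⊆ C := Set.union_subset hxC (hPC u huH)
  refine hfree (h2 V G s ({x₀} ∪ P u) O Y V I P ?_ hR.connO hR.connY ?_ ?_ hR.dOY ?_ ?_ ?_)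
  · refine h3 V G {x₀} (P u) (Conn.singleton x₀) hPu.1 (Or.inl ⟨x₀, rfl, u, hPu.2.1, hu0.2⟩)
  · exact hR.dCO.mono_left hA1C
  · exact hR.dCY.mono_left hA1C
  · intro y hy
    have hyH := hIH y hy
    have hPy := hcut.path y hyH
    refine ⟨hPy.1, ?_, hdO y hyH, hdY y hyH, ?_, hPy.2.2.2.2.1, hPy.2.2.2.2.2⟩
    · rw [Set.disjoint_union_left]
      refine ⟨?_, hcut.dj u huH y hyH (hIu y hy)⟩
      rw [Set.disjoint_singleton_left]
      intro hmem
      have : x₀ ∈ P y ∩ H := ⟨hmem, hx₀H⟩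
      rw [hPy.2.2.2.1, Set.mem_singleton_iff] at this
      exact hIx y hy this
    · rcases hy with h | h
      · exact ⟨y, hPy.2.1, x₀, Or.inl rfl, h.1.2.symm⟩
      · exact ⟨y, hPy.2.1, u, Or.inr hPu.2.1, (huT y h).2⟩
  · intro y hy y' hy' hne
    exact hcut.dj y (hIH y hy) y' (hIH y' hy') hne
  · have a1 : (nb G x₀ H \ {u}).ncard = (nb G x₀ H).ncard - 1 :=
      Set.ncard_diff_singleton_of_mem hu0
    have a2 : Disjoint (nb G x₀ H \ {u}) T'' := by
      rw [Set.disjoint_left]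
      intro v hv hv'
      exact hTadj x₀ hx₀T v (hT''T v hv').1 hv.1.2
    rw [hI, Set.ncard_union_eq a2 (Set.toFinite _) (Set.toFinite _), a1, hT''c]
    have a3 := hTdeg x₀ hx₀T
    omega

end Pool.K3F
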