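import Pool.Agent.Work.MP_768e99_five.Interface

set_option autoImplicit false

namespace Pool.K3F

open Pool.Agent.Work.MP_768e99_co

lemma RM_nb_mono {V : Type} (G : SimpleGraph V) (x : V) {S T : Set V} (h : S ⊆ T) :
    nb G x S ⊆ nb G x T := fun _ hy => ⟨h hy.1, hy.2⟩

lemma RM_max {V : Type} [Fintype V] (G : SimpleGraph V) (S : Set V) :
    ∃ T ⊆ S, (∀ x ∈ T, ∀ y ∈ T, ¬ G.Adj x y) ∧ ∀ v ∈ S, v ∉ T → ∃ w ∈ T, G.Adj v w := by
  classical
  obtain ⟨T, hT, hmax⟩ := Set.exists_max_image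
    {T : Set V | T ⊆ S ∧ ∀ x ∈ T, ∀ y ∈ T, ¬ G.Adj x y} (fun T => T.ncard) (Set.toFinite _)
    ⟨∅, Set.empty_subset _, fun x hx => absurd hx (Set.notMem_empty x)⟩
  refine ⟨T, hT.1, hT.2, ?_⟩
  intro v hvS hvT
  by_contra hno
  push Not at hno
  have hins : insert v T ∈ {T : Set V | T ⊆ S ∧ ∀ x ∈ T, ∀ y ∈ T, ¬ G.Adj x y} := by
    refine ⟨Set.insert_subset hvS hT.1, ?_⟩
    intro x hx y hy
    rcases Set.mem_insert_iff.mp hx with hx' | hx'
    · rcases Set.mem_insert_iff.mp hy with hy' | hy'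
      · rw [hx', hy']
        exact G.loopless.irrefl _
      · rw [hx']
        exact hno y hy'
    · rcases Set.mem_insert_iff.mp hy with hy' | hy'
      · rw [hy']
        exact fun h => hno x hx' h.symm
      · exact hT.2 x hx' y hy'
  have h1 := hmax _ hins
  have h2 : (insert v T).ncard = T.ncard + 1 := Set.ncard_insert_of_notMem hvT (Set.toFinite T)
  rw [h2] at h1
  omega

lemma RM_ind {V : Type} [Fintype V] (G : SimpleGraph V) (d c : ℕ) (H : Set V)
    (hq : ∀ T ⊆ H, (∀ x ∈ T, d + 1 ≤ (nb G x H).ncard) → (∀ x ∈ T, ∀ y ∈ T, ¬ G.Adj x y) →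
      T.ncard ≤ c) (j : ℕ) :
    ∃ R ⊆ H, R.ncard ≤ c * j ∧ (∀ x ∈ R, d + 1 ≤ (nb G x H).ncard) ∧
      ∀ v ∈ H \ R, d + 1 ≤ (nb G v (H \ R)).ncard → j ≤ (nb G v R).ncard := by
  classical
  induction j with
  | zero =>
    refine ⟨∅, Set.empty_subset _, by simp, fun x hx => absurd hx (Set.notMem_empty x), ?_⟩
    intro v _ _
    exact Nat.zero_le _
  | succ j ih =>
    obtain ⟨R, hRH, hRc, hRd, hRv⟩ := ih
    obtain ⟨T, hTS, hTi, hTm⟩ := RM_max G {v | v ∈ H \ R ∧ d + 1 ≤ (nb G v (H \ R)).ncard}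
    have hTH : T ⊆ H := fun x hx => (hTS hx).1.1
    have hTd : ∀ x ∈ T, d + 1 ≤ (nb G x H).ncard := by
      intro x hx
      exact (hTS hx).2.trans (Set.ncard_le_ncard (RM_nb_mono G x Set.sdiff_subset)
        (Set.toFinite _))
    have hTc : T.ncard ≤ c := hq T hTH hTd hTi
    refine ⟨R ∪ T, Set.union_subset hRH hTH, ?_, ?_, ?_⟩
    · have := Set.ncard_union_le R T
      rw [Nat.mul_succ]
      omega
    · intro x hx
      rcases hx with hx | hx
      · exact hRd x hx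
      · exact hTd x hx
    · intro v hv hvd
      have hvR : v ∈ H \ R := ⟨hv.1, fun h => hv.2 (Or.inl h)⟩
      have hvT : v ∉ T := fun h => hv.2 (Or.inr h)
      have hsub : H \ (R ∪ T) ⊆ H \ R := fun x hx => ⟨hx.1, fun h => hx.2 (Or.inl h)⟩
      have hvd' : d + 1 ≤ (nb G v (H \ R)).ncard :=
        hvd.trans (Set.ncard_le_ncard (RM_nb_mono G v hsub) (Set.toFinite _))
      obtain ⟨w, hwT, hvw⟩ := hTm v ⟨hvR, hvd'⟩ hvT
      have hj := hRv v hvR hvd'
      have hwR : w ∉ nb G v R := fun h => (hTS hwT).1.2 h.1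
      have h1 : insert w (nb G v R) ⊆ nb G v (R ∪ T) := by
        apply Set.insert_subset
        · exact ⟨Or.inr hwT, hvw⟩
        · exact RM_nb_mono G v Set.subset_union_left
      have h2 := Set.ncard_le_ncard h1 (Set.toFinite _)
      rw [Set.ncard_insert_of_notMem hwR (Set.toFinite _)] at h2
      omega

theorem p_RM : Stmt_RM := by
  classical
  intro V _ G d c H hc hdeg hq
  obtain ⟨R, hRH, hRc, hRd, hRv⟩ := RM_ind G d c H hq (c - 1)
  refine ⟨R, hRH, hRc, ?_, hRd⟩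
  intro v hv
  by_contra hcon
  push Not at hcon
  have h1 := hRv v hv hcon
  have h2 : (nb G v (H \ R) ∪ nb G v R).ncard = (nb G v (H \ R)).ncard + (nb G v R).ncard := by
    apply Set.ncard_union_eq _ (Set.toFinite _) (Set.toFinite _)
    rw [Set.disjoint_left]
    intro x hx hx'
    exact hx.1.2 hx'.1
  have h3 : nb G v (H \ R) ∪ nb G v R ⊆ nb G v H := by
    apply Set.union_subset
    · exact RM_nb_mono G v Set.sdiff_subset
    · exact RM_nb_mono G v hRH
  have h4 := Set.ncard_le_ncard h3 (Set.toFinite _)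
  have h5 := hdeg v hv.1
  omega

end Pool.K3F
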