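import Pool.Agent.Work.MP_768e99_five.Interface

set_option autoImplicit false

namespace Pool.K3F

open Pool.Agent.Work.MP_768e99_co

theorem p_S2 (hCUT : Stmt_CUT) (hDEG : Stmt_DEG) (hQUAD : Stmt_QUAD) (hRM : Stmt_RM)
    (hCOL : Stmt_COL) (hND : Stmt_ND) (hNG : Stmt_NG) : Stmt_S2 := by
  intro V _ G s d c K C O Y R c₀ hPar hFree hSt ih2 ih1
  obtain ⟨H, P, hne, hcut⟩ := hCUT V G C O Y hSt.reg
  obtain ⟨hs, hc, hK, h6, hcc, h2⟩ := id hPar
  obtain ⟨RH, hRH, hcard, hM, hR⟩ := hRM V G d c H hc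
    (fun x hx => by
      have := hDEG V G s C O Y H P hFree hSt.reg hcut x hx
      omega)
    (fun T hT h1 h2 => hQUAD V G s d c K C O Y H P hPar hFree hSt.reg hcut T hT h1 h2)
  obtain ⟨f, g, hfg, hf, hg⟩ := hCOL V G K C O Y R c₀ hSt
  obtain ⟨col, hnode⟩ := hND V G d K C O Y R H RH P c₀ f g hSt hne hcut hRH
    (by rw [hK]; exact hcard) hM hR hfg hf hg ih2 ih1
  exact ⟨col, hNG V G s d c K C O Y R H RH P c₀ col f g hPar hFree hnode⟩

end Pool.K3F
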