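import Pool.Agent.Work.MP_768e99_five.Interface

set_option autoImplicit false

namespace Pool.K3F

open Pool.Agent.Work.MP_768e99_co

theorem p_TJ (hHIT : Stmt_HIT) (hCN1 : Stmt_CN1) : Stmt_TJ := by
  intro V G d F O Y Q x' I P hF hFQ hS
  obtain ⟨a, haF, q, hq, haq⟩ := hFQ
  have hne : (F ∩ ({x'} ∪ ⋃ y ∈ I, P y)).Nonempty := ⟨x', hS.mem, Or.inl rfl⟩
  obtain ⟨T₀, hT₀, hc, haT, z, hz⟩ := hHIT V G F ({x'} ∪ ⋃ y ∈ I, P y) a hF haF hne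
  have hz' : z ∈ T₀ ∩ ({x'} ∪ ⋃ y ∈ I, P y) := by rw [hz]; rfl
  rcases hz'.2 with h | h
  · have hzx : z = x' := h
    subst hzx
    refine ⟨T₀, hT₀, hc, hz'.1, ⟨a, haT, q, hq, haq⟩, z, fun y hy _ => ?_⟩
    rw [Set.disjoint_left]
    intro w hw hwP
    have hwz : w ∈ T₀ ∩ ({z} ∪ ⋃ y ∈ I, P y) :=
      ⟨hw, Or.inr (Set.mem_iUnion₂.2 ⟨y, hy, hwP⟩)⟩
    rw [hz] at hwz
    have : w = z := hwz
    subst this
    exact (hS.leaf y hy).2.2.1 hwP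
  · obtain ⟨y₀, hy₀, hzP⟩ := Set.mem_iUnion₂.1 h
    have h1 : Conn G (P y₀ ∪ {x'}) :=
      hCN1 V G (P y₀) {x'} (hS.leaf y₀ hy₀).1 (Conn.singleton x') (Or.inl (hS.leaf y₀ hy₀).2.2.2.1)
    have h2 : Conn G (T₀ ∪ (P y₀ ∪ {x'})) :=
      hCN1 V G T₀ (P y₀ ∪ {x'}) hc h1 (Or.inr ⟨z, hz'.1, Or.inl hzP⟩)
    refine ⟨T₀ ∪ (P y₀ ∪ {x'}), ?_, h2, Or.inr (Or.inr rfl), ⟨a, Or.inl haT, q, hq, haq⟩, y₀,
      fun y hy hyy => ?_⟩
    · rintro w (hw | hw | hw)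
      · exact hT₀ hw
      · exact (hS.leaf y₀ hy₀).2.1 hw
      · have : w = x' := hw
        rw [this]; exact hS.mem
    · rw [Set.disjoint_left]
      rintro w (hw | hw | hw) hwP
      · have hwz : w ∈ T₀ ∩ ({x'} ∪ ⋃ y ∈ I, P y) :=
          ⟨hw, Or.inr (Set.mem_iUnion₂.2 ⟨y, hy, hwP⟩)⟩
        rw [hz] at hwz
        have : w = z := hwz
        subst this
        exact Set.disjoint_left.1 (hS.dj y hy y₀ hy₀ hyy) hwP hzP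
      · exact Set.disjoint_left.1 (hS.dj y hy y₀ hy₀ hyy) hwP hw
      · have : w = x' := hw
        subst this
        exact (hS.leaf y hy).2.2.1 hwP

end Pool.K3F
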