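import Pool.Agent.Work.MP_768e99_five.Interface

/-!
# Five colours for `K_{3,s}`-minor-free graphs: block `TR`
-/

set_option autoImplicit false

namespace Pool.K3F

open Pool.Agent.Work.MP_768e99_co

theorem p_TR : Stmt_TR := by
  intro V G d F c₁ c' c hF hN
  have key : ∀ x ∈ F, {y | G.Adj x y ∧ c y = c x} = {y | G.Adj x y ∧ c' y = c' x} := by
    intro x hx
    ext y
    simp only [Set.mem_ofPred_eq]
    constructor
    · rintro ⟨h1, h2⟩
      refine ⟨h1, ?_⟩
      rw [← hN x hx y h1, ← hF x hx, h2]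
    · rintro ⟨h1, h2⟩
      refine ⟨h1, ?_⟩
      rw [hN x hx y h1, hF x hx, h2]
  refine ⟨?_, ?_⟩
  · intro K O Y R hR h
    refine ⟨fun v _ => rfl, ?_, ?_, ?_, ?_⟩
    · intro x hx
      rw [key x hx]
      exact h.defect x hx
    · intro x hx u hu hadj hc
      refine h.conf x hx u hu hadj ?_
      rw [← hN x hx u hadj, ← hF x hx, hc]
    · intro u hu
      have e : {x | x ∈ F ∧ G.Adj u x ∧ c x = c u} = {x | x ∈ F ∧ G.Adj u x ∧ c' x = c' u} := by
        ext x
        simp only [Set.mem_ofPred_eq]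
        constructor
        · rintro ⟨h1, h2, h3⟩
          refine ⟨h1, h2, ?_⟩
          rw [← hF x h1, ← hR u hu, h3]
        · rintro ⟨h1, h2, h3⟩
          refine ⟨h1, h2, ?_⟩
          rw [hF x h1, hR u hu, h3]
      rw [e]
      exact h.few u hu
    · rintro u hu ⟨x, hx, hadj, hc⟩
      refine h.bad u hu ⟨x, hx, hadj, ?_⟩
      rw [← hF x hx, ← hR u hu, hc]
  · intro h
    refine ⟨fun v _ => rfl, ?_, ?_⟩
    · intro x hx
      rw [key x hx]
      exact h.defect x hx
    · intro x hx u hu hadj hc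
      refine h.conf x hx u hu hadj ?_
      rw [← hN x hx u hadj, ← hF x hx, hc]

end Pool.K3F
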