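import Pool.Agent.Work.MP_768e99_five.B_CN1
import Pool.Agent.Work.MP_768e99_five.B_CN2
import Pool.Agent.Work.MP_768e99_five.B_CMP
import Pool.Agent.Work.MP_768e99_five.B_HIT
import Pool.Agent.Work.MP_768e99_five.B_HIT2
import Pool.Agent.Work.MP_768e99_five.B_K3
import Pool.Agent.Work.MP_768e99_five.B_CUT
import Pool.Agent.Work.MP_768e99_five.B_SIDE
import Pool.Agent.Work.MP_768e99_five.B_KID
import Pool.Agent.Work.MP_768e99_five.B_KID0
import Pool.Agent.Work.MP_768e99_five.B_DEG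
import Pool.Agent.Work.MP_768e99_five.B_LNK
import Pool.Agent.Work.MP_768e99_five.B_PAIR
import Pool.Agent.Work.MP_768e99_five.B_QUAD
import Pool.Agent.Work.MP_768e99_five.B_RM
import Pool.Agent.Work.MP_768e99_five.B_BST
import Pool.Agent.Work.MP_768e99_five.B_AN1
import Pool.Agent.Work.MP_768e99_five.B_TJ
import Pool.Agent.Work.MP_768e99_five.B_AN2
import Pool.Agent.Work.MP_768e99_five.B_ANT
import Pool.Agent.Work.MP_768e99_five.B_CNT
import Pool.Agent.Work.MP_768e99_five.B_SDC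
import Pool.Agent.Work.MP_768e99_five.B_COL
import Pool.Agent.Work.MP_768e99_five.B_GL
import Pool.Agent.Work.MP_768e99_five.B_TR
import Pool.Agent.Work.MP_768e99_five.B_KST
import Pool.Agent.Work.MP_768e99_five.B_ND
import Pool.Agent.Work.MP_768e99_five.B_NC
import Pool.Agent.Work.MP_768e99_five.B_NM
import Pool.Agent.Work.MP_768e99_five.B_NR
import Pool.Agent.Work.MP_768e99_five.B_NG
import Pool.Agent.Work.MP_768e99_five.B_S2
import Pool.Agent.Work.MP_768e99_five.B_S1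
import Pool.Agent.Work.MP_768e99_five.B_ALL
import Pool.Agent.Work.MP_768e99_five.B_FIN

/-!
# Five colours for `K_{3,s}`-minor-free graphs: assembly
-/

set_option autoImplicit false

namespace Pool.K3F

open Pool.Agent.Work.MP_768e99_co

/-- For `c ≥ 2` and `6 c (c - 1) ≤ d + 1` every finite graph without `K_{3,d+c}` minor is
`(5, d)*`-colourable. -/
theorem five_type0 : Stmt_FIN := by
  have hK3 := p_K3
  have hCMP := p_CMP
  have hCN1 := p_CN1
  have hCN2 := p_CN2
  have hHIT := p_HIT hCMP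
  have hHIT2 := p_HIT2 hHIT
  have hSIDE := p_SIDE hCN2 hCMP
  have hKID := p_KID hSIDE hCMP
  have hKID0 := p_KID0 hCMP
  have hLNK := p_LNK hHIT2 hCN1
  have hPAIR := p_PAIR hLNK hK3
  have hTJ := p_TJ hHIT hCN1
  have hANT := p_ANT (p_AN1 hK3 hCN2) (p_AN2 hTJ hK3 hCN2)
  have hSDC := p_SDC p_CNT hANT hSIDE hKID hCMP
  have hGL := p_GL hCMP
  have hKST := p_KST hKID hKID0 hSIDE
  have hND := p_ND hKST hGL p_TR hCMP
  have hNC := p_NC hCMP
  have hNG := p_NG hNC (p_NM hNC hCMP) (p_NR hNC hSDC hCMP) p_BST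
  have hS2 := p_S2 p_CUT (p_DEG hK3) (p_QUAD hPAIR hK3 hCN1) p_RM p_COL hND hNG
  have hS1 := p_S1 hGL p_TR hCMP
  exact p_FIN (p_ALL hS2 hS1 hGL p_TR hCMP)

end Pool.K3F
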