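import Pool.Agent.Work.MP_768e99_five.Interface

/-!
Block CN1: two connected sets which touch or meet have a connected union.
-/

set_option autoImplicit false

namespace Pool.K3F

open Pool.Agent.Work.MP_768e99_co

theorem CN1_part {V : Type} {G : SimpleGraph V} {S T Z : Set V} (hS : Conn G S)
    (hZ : ∀ x ∈ Z, ∀ y ∈ S ∪ T, G.Adj x y → y ∈ Z) (hne : (Z ∩ S).Nonempty) : S ⊆ Z := by
  have h1 := hS.2 (Z ∩ S) Set.inter_subset_right hne
    (fun x hx y hy hxy => ⟨hZ x hx.1 y (Or.inl hy) hxy, hy⟩)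
  exact fun x hx => (h1 hx).1

theorem p_CN1 : Stmt_CN1 := by
  intro V G S T hS hT hST
  refine ⟨hS.1.mono Set.subset_union_left, ?_⟩
  intro Z hZsub hZne hZ
  have hZ' : ∀ x ∈ Z, ∀ y ∈ T ∪ S, G.Adj x y → y ∈ Z := by
    intro x hx y hy hxy
    exact hZ x hx y hy.symm hxy
  have hSZ : (Z ∩ S).Nonempty → S ⊆ Z := CN1_part hS hZ
  have hTZ : (Z ∩ T).Nonempty → T ⊆ Z := CN1_part hT hZ'
  have hSTZ : S ⊆ Z → T ⊆ Z := by
    intro h
    apply hTZ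
    rcases hST with ⟨x, hx, y, hy, hxy⟩ | ⟨x, hx, hx'⟩
    · exact ⟨y, hZ x (h hx) y (Or.inr hy) hxy, hy⟩
    · exact ⟨x, h hx, hx'⟩
  have hTSZ : T ⊆ Z → S ⊆ Z := by
    intro h
    apply hSZ
    rcases hST with ⟨x, hx, y, hy, hxy⟩ | ⟨x, hx, hx'⟩
    · exact ⟨x, hZ y (h hy) x (Or.inl hx) hxy.symm, hx⟩
    · exact ⟨x, h hx', hx⟩
  obtain ⟨z, hz⟩ := hZne
  rcases hZsub hz with h | h
  · have h1 := hSZ ⟨z, hz, h⟩
    exact Set.union_subset h1 (hSTZ h1)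
  · have h1 := hTZ ⟨z, hz, h⟩
    exact Set.union_subset (hTSZ h1) h1

end Pool.K3F
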