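import Pool.Agent.Work.MP_768e99_five.Interface

/-!
# Five colours for `K_{3,s}`-minor-free graphs: block `DEG`
-/

set_option autoImplicit false

namespace Pool.K3F

open Pool.Agent.Work.MP_768e99_co

theorem DEG_single {V : Type} (G : SimpleGraph V) (x : V) : Conn G {x} := by
  refine ⟨⟨x, rfl⟩, ?_⟩
  rintro T hT ⟨y, hy⟩ _ z hz
  have h1 : y = x := hT hy
  have h2 : z = x := hz
  rw [h2, ← h1]
  exact hy

theorem p_DEG (hK3 : Stmt_K3) : Stmt_DEG := by
  intro V _ G s C O Y H P hfree hreg hcut x hx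
  by_contra hlt
  have hle : s ≤ (nb G x H).ncard := Nat.le_of_not_lt hlt
  have hxC : x ∈ C := hcut.sub hx
  refine hfree (hK3 V G s {x} O Y V (nb G x H) P (DEG_single G x) hreg.connO hreg.connY ?_ ?_
    hreg.dOY ?_ ?_ hle)
  · rw [Set.disjoint_singleton_left]
    exact fun h => Set.disjoint_left.mp hreg.dCO hxC h
  · rw [Set.disjoint_singleton_left]
    exact fun h => Set.disjoint_left.mp hreg.dCY hxC h
  · rintro y ⟨hyH, hadj⟩
    obtain ⟨h1, h2, h3, h4, h5, h6⟩ := hcut.path y hyH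
    refine ⟨h1, ?_, ?_, ?_, ?_, h5, h6⟩
    · rw [Set.disjoint_singleton_left]
      intro h
      have h7 : x ∈ P y ∩ H := ⟨h, hx⟩
      rw [h4] at h7
      have h8 : x = y := h7
      rw [h8] at hadj
      exact G.irrefl hadj
    · exact (hreg.dCO.mono_left h3).symm
    · exact (hreg.dCY.mono_left h3).symm
    · exact ⟨y, h2, x, rfl, hadj.symm⟩
  · rintro y ⟨hyH, _⟩ y' ⟨hyH', _⟩ hne
    exact hcut.dj y hyH y' hyH' hne

end Pool.K3F
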