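import Pool.Agent.Work.MP_768e99_five.Interface

set_option autoImplicit false

namespace Pool.K3F

open Pool.Agent.Work.MP_768e99_co

lemma S1_single {V : Type} (G : SimpleGraph V) (v : V) : Conn G {v} := by
  refine ⟨⟨v, rfl⟩, ?_⟩
  rintro T hT ⟨t, ht⟩ _ x hx
  have e1 : t = v := hT ht
  have e2 : x = v := hx
  rw [e2, ← e1]
  exact ht

lemma S1_colour : ∀ z z' : Fin 5, ∃ k : Fin 5, k ≠ z ∧ k ≠ z' := by decide

theorem p_S1 (hGL : Stmt_GL) (hTR : Stmt_TR) (hCMP : Stmt_CMP) : Stmt_S1 := by
  classical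
  intro V _ G d K C Z c₀ hst ih2 ih1
  obtain ⟨v, hv⟩ := hst.conn.1
  obtain ⟨z, z', hz⟩ := hst.vZ
  obtain ⟨k, hk1, hk2⟩ := S1_colour z z'
  obtain ⟨c₁, hc₁⟩ : ∃ c₁ : V → Fin 5, c₁ = Function.update c₀ v k := ⟨_, rfl⟩
  have hc₁v : c₁ v = k := by rw [hc₁, Function.update_self]
  have hc₁n : ∀ w, w ≠ v → c₁ w = c₀ w := fun w hw => by rw [hc₁, Function.update_of_ne hw]
  obtain ⟨S, hS⟩ : ∃ S : Set V, S = C \ {v} := ⟨_, rfl⟩
  have hSv : v ∉ S := by
    rw [hS]
    simp
  have hSC : S ⊆ C := by
    rw [hS]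
    exact Set.diff_subset
  have hmem : ∀ w ∈ C, w ≠ v → w ∈ S := fun w hw hne => by
    rw [hS]
    exact ⟨hw, hne⟩
  have hZv : v ∉ Z := fun h => (Set.disjoint_left.1 hst.dCZ) hv h
  have hZS : ∀ u ∈ Z, u ∉ S := fun u hu h => (Set.disjoint_left.1 hst.dCZ) (hSC h) hu
  have hconv : Conn G {v} := S1_single G v
  have hFt : ∀ F, IsCmp G S F → Tch G F {v} := by
    intro F hF
    by_contra hn
    have h : C ⊆ F := hst.conn.2 F (hF.2.1.trans hSC) hF.1.1 (by
      intro x hx y hy hxy
      by_cases hyv : y = v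
      · exact absurd ⟨x, hx, v, rfl, hyv ▸ hxy⟩ hn
      · exact hF.2.2 x hx y (hmem y hy hyv) hxy)
    exact hSv (hF.2.1 (h hv))
  have hlt : ∀ F, IsCmp G S F → F.ncard < C.ncard := by
    intro F hF
    exact Set.ncard_lt_ncard ⟨hF.2.1.trans hSC, fun h => hSv (hF.2.1 (h hv))⟩ (Set.toFinite _)
  have hout : ∀ F, IsCmp G S F → ∀ x ∈ F, ∀ u, G.Adj x u → u ∈ F ∨ u ∈ Z ∨ u = v := by
    intro F hF x hx u hxu
    rcases hst.out x (hSC (hF.2.1 hx)) u hxu with h | h
    · by_cases huv : u = v
      · exact Or.inr (Or.inr huv)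
      · exact Or.inl (hF.2.2 x hx u (hmem u h huv) hxu)
    · exact Or.inr (Or.inl h)
  have hdZ : ∀ F, IsCmp G S F → Disjoint F Z := by
    intro F hF
    exact Set.disjoint_left.2 fun x hx hxZ => hZS x hxZ (hF.2.1 hx)
  have hdv : ∀ F, IsCmp G S F → Disjoint F {v} := by
    intro F hF
    refine Set.disjoint_left.2 fun x hx hxv => ?_
    have e : x = v := hxv
    rw [e] at hx
    exact hSv (hF.2.1 hx)
  have hex : ∀ F, ∃ cF : V → Fin 5, IsCmp G S F →
      (Tch G F Z → Good2 G d K F Z {v} ∅ c₁ cF) ∧ (¬ Tch G F Z → Good1 G d F c₁ cF) := by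
    intro F
    by_cases hF : IsCmp G S F
    · by_cases ht : Tch G F Z
      · have hZc : Conn G Z := by
          rcases hst.connZ with h | h
          · obtain ⟨x, _, y, hy, _⟩ := ht
            rw [h] at hy
            exact absurd hy (Set.notMem_empty y)
          · exact h
        have hst2 : St G K F Z {v} ∅ c₁ :=
          { reg :=
              { conn := hF.1
                connO := hZc
                connY := hconv
                dCO := hdZ F hF
                dCY := hdv F hF
                dOY := Set.disjoint_left.2 fun x hx hxv => by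
                  have e : x = v := hxv
                  rw [e] at hx
                  exact hZv hx
                out := fun x hx u hxu => hout F hF x hx u hxu
                tO := ht
                tY := hFt F hF }
            vO := ⟨z, z', fun x hx u hu hxu => by
              rw [hc₁n u (fun h => hZv (h ▸ hu))]
              exact hz x (hSC (hF.2.1 hx)) u hu hxu⟩
            vY := ⟨k, k, fun x hx u hu hxu => by
              have e : u = v := hu
              exact ⟨fun _ => by rw [e, hc₁v], fun h => absurd h (Set.notMem_empty u)⟩⟩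
            sub := Set.empty_subset _
            card := by simp }
        obtain ⟨c, hc⟩ := ih2 F Z {v} ∅ c₁ (hlt F hF) hst2
        exact ⟨c, fun _ => ⟨fun _ => hc, fun h => absurd ht h⟩⟩
      · have hst1 : St1 G F {v} c₁ :=
          { conn := hF.1
            connZ := Or.inr hconv
            dCZ := hdv F hF
            out := fun x hx u hxu => by
              rcases hout F hF x hx u hxu with h | h | h
              · exact Or.inl h
              · exact absurd ⟨x, hx, u, h, hxu⟩ ht
              · exact Or.inr h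
            vZ := ⟨k, k, fun x hx u hu hxu => by
              have e : u = v := hu
              exact Or.inl (by rw [e, hc₁v])⟩ }
        obtain ⟨c, hc⟩ := ih1 F {v} c₁ (hlt F hF) hst1
        exact ⟨c, fun _ => ⟨fun h => absurd h ht, fun _ => hc⟩⟩
    · exact ⟨c₁, fun h => absurd h hF⟩
  choose cF hcF using hex
  obtain ⟨c, hc1, hc2⟩ := hGL V G S c₁ cF
  have key : ∀ F, IsCmp G S F → (∀ x ∈ F, {y | G.Adj x y ∧ c y = c x}.ncard ≤ d) ∧
      ∀ x ∈ F, ∀ u, u ∉ F → G.Adj x u → c u ≠ c x := by
    intro F hF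
    have hoff : (∀ u, u ∉ F → cF F u = c₁ u) →
        ∀ x ∈ F, ∀ u, G.Adj x u → c u = cF F u := by
      intro g x hx u hxu
      by_cases huF : u ∈ F
      · exact hc2 F hF u huF
      · rw [g u huF]
        apply hc1
        rcases hout F hF x hx u hxu with h | h | h
        · exact absurd h huF
        · exact hZS u h
        · rw [h]
          exact hSv
    by_cases ht : Tch G F Z
    · have g := (hcF F hF).1 ht
      have tr := (hTR V G d F c₁ (cF F) c (hc2 F hF) (hoff g.off)).1 K Z {v} ∅
        (fun u hu => absurd hu (Set.notMem_empty u)) g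
      exact ⟨tr.defect, fun x hx u hu hxu he => Set.notMem_empty u (tr.conf x hx u hu hxu he)⟩
    · have g := (hcF F hF).2 ht
      have tr := (hTR V G d F c₁ (cF F) c (hc2 F hF) (hoff g.off)).2 g
      exact ⟨tr.defect, tr.conf⟩
  have hcv : c v = k := by rw [hc1 v hSv, hc₁v]
  have hcout : ∀ u, u ∉ C → c u = c₀ u := by
    intro u hu
    rw [hc1 u (fun h => hu (hSC h)), hc₁n u (fun h => hu (h ▸ hv))]
  have hcmp : ∀ x ∈ S, ∃ F, IsCmp G S F ∧ x ∈ F := fun x hx =>
    ⟨Cmp G S x, ((hCMP V G S).1 x hx).1, ((hCMP V G S).1 x hx).2⟩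
  have hZk : ∀ u ∈ Z, G.Adj v u → c u ≠ c v := by
    intro u hu hvu he
    rw [hcout u (fun h => (Set.disjoint_left.1 hst.dCZ) h hu), hcv] at he
    rcases hz v hv u hu hvu with h | h
    · exact hk1 (he.symm.trans h)
    · exact hk2 (he.symm.trans h)
  refine ⟨c, ⟨hcout, ?_, ?_⟩⟩
  · intro x hx
    by_cases hxv : x = v
    · rw [hxv]
      have he : {y | G.Adj v y ∧ c y = c v} = ∅ := by
        ext y
        simp only [Set.mem_setOf_eq, Set.mem_empty_iff_false, iff_false, not_and]
        intro hvy hy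
        rcases hst.out v hv y hvy with h | h
        · obtain ⟨F, hF, hyF⟩ := hcmp y (hmem y h hvy.ne')
          exact (key F hF).2 y hyF v (fun h => hSv (hF.2.1 h)) hvy.symm hy.symm
        · exact hZk y h hvy hy
      rw [he, Set.ncard_empty]
      exact Nat.zero_le _
    · obtain ⟨F, hF, hxF⟩ := hcmp x (hmem x hx hxv)
      exact (key F hF).1 x hxF
  · intro x hx u hu hxu
    by_cases hxv : x = v
    · rw [hxv] at hxu ⊢
      rcases hst.out v hv u hxu with h | h
      · exact absurd h hu
      · exact hZk u h hxu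
    · obtain ⟨F, hF, hxF⟩ := hcmp x (hmem x hx hxv)
      exact (key F hF).2 x hxF u (fun h => hu (hSC (hF.2.1 h))) hxu

end Pool.K3F
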