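import Pool.Agent.Work.MP_768e99_five.Interface

/-! Block SDC. -/

set_option autoImplicit false

namespace Pool.K3F

open Pool.Agent.Work.MP_768e99_co

theorem p_SDC (h1 : Stmt_CNT) (h2 : Stmt_ANT) (h3 : Stmt_SIDE) (h4 : Stmt_KID) (h5 : Stmt_CMP) :
    Stmt_SDC := by
  intro V _ G s d c K C O Y H RH P col hpar hfree hR hHne hcut hRH hgood x hx
  obtain ⟨c1, c2, c3, -⟩ := h5 V G (C \ H)
  have hxH : x ∈ H := hRH hx
  have hxC : x ∈ C := hcut.sub hxH
  refine h1 V _ (Cmp G (C \ H)) K ?_ ?_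
  · rintro y ⟨hyC, hyO, -, -⟩
    obtain ⟨hF, -⟩ := c1 y hyC
    refine (Set.ncard_le_ncard ?_ (Set.toFinite _)).trans ((hgood _ hF hyO).few x hx)
    rintro z ⟨⟨hzC, -, hz1, hz2⟩, hz⟩
    refine ⟨?_, hz1, hz2⟩
    rw [← hz]
    exact (c1 z hzC).2
  · intro y hy hne
    have hReg : ∀ j, Reg G (Cmp G (C \ H) (y j)) O (Rt G C H Y) := fun j =>
      (h4 V G C O Y H P hR hHne hcut _ (c1 _ (hy j).1).1 (hy j).2.1).1
    have hbad : ∀ j, Bad G d (Cmp G (C \ H) (y j)) O (Rt G C H Y) RH x := fun j =>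
      (hgood _ (c1 _ (hy j).1).1 (hy j).2.1).bad x hx
        ⟨y j, (c1 _ (hy j).1).2, (hy j).2.2.1, (hy j).2.2.2⟩
    have hxR : x ∈ Rt G C H Y := Or.inl (Or.inr hxH)
    have hins : insert x (Rt G C H Y \ {x}) = Rt G C H Y := by
      rw [Set.insert_diff_singleton, Set.insert_eq_of_mem hxR]
    have hRtsub : Rt G C H Y ⊆ Y ∪ C := by
      rintro v ((h | h) | h)
      · exact Or.inl h
      · exact Or.inr (hcut.sub h)
      · exact Or.inr h.1.1
    have hOQ : Disjoint O (Rt G C H Y \ {x}) := by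
      rw [Set.disjoint_left]
      intro v hv hvR
      rcases hRtsub hvR.1 with h | h
      · exact Set.disjoint_left.1 hR.dOY hv h
      · exact Set.disjoint_left.1 hR.dCO h hv
    refine hfree (h2 V G s d c K O (Rt G C H Y \ {x}) x (fun j => Cmp G (C \ H) (y j)) hpar
      hR.connO ((h3 V G C O Y H P hR hcut).2 x hxH) hOQ
      (fun h => Set.disjoint_left.1 hR.dCO hxC h) (fun h => h.2 rfl) ?_ ?_ ?_)
    · intro j
      refine ⟨(hReg j).conn, (hReg j).dCO, (hReg j).dCY.mono_right Set.diff_subset, ?_, ?_⟩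
      · intro h
        exact Set.disjoint_left.1 (hReg j).dCY h hxR
      · refine (hbad j).1.mono subset_rfl ?_
        intro v hv
        refine ⟨hv.1, ?_⟩
        rintro rfl
        exact hv.2 hx
    · intro i j hij
      exact c3 _ _ (c1 _ (hy i).1).1 (c1 _ (hy j).1).1 (hne i j hij)
    · intro j
      obtain ⟨-, x', I, P', hadj, hstar⟩ := hbad j
      refine ⟨x', I, P', hadj, ?_⟩
      rw [hins]
      exact hstar

end Pool.K3F
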