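import Pool.Agent.Work.MP_768e99_co.Main

/-!
# Five colours for `K_{3,s}`-minor-free graphs (note 3456): definitions

`Conn G S` (`S` nonempty, no proper nonempty subset of `S` closed under adjacency in `S`) and
`KM G Q P r s` (biclique minors with the sides in prescribed sets) are those of
`Work/MP_768e99_co`.
-/

set_option autoImplicit false

namespace Pool.K3F

open Pool.Agent.Work.MP_768e99_co

/-- `S` and `T` touch: an edge of `G` joins them. -/
def Tch {V : Type} (G : SimpleGraph V) (S T : Set V) : Prop := ∃ x ∈ S, ∃ y ∈ T, G.Adj x y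

/-- The neighbours of `x` in `H`. -/
def nb {V : Type} (G : SimpleGraph V) (x : V) (H : Set V) : Set V := {y | y ∈ H ∧ G.Adj x y}

/-- `G` has no `K_{3,s}` minor. -/
def Free {V : Type} (G : SimpleGraph V) (s : ℕ) : Prop := ¬ KM G Set.univ Set.univ 3 s

/-- The component of `v` in `S`. -/
def Cmp {V : Type} (G : SimpleGraph V) (S : Set V) (v : V) : Set V :=
  {w | ∃ T : Set V, T ⊆ S ∧ Conn G T ∧ v ∈ T ∧ w ∈ T}

/-- `F` is a component of `S`. -/
def IsCmp {V : Type} (G : SimpleGraph V) (S F : Set V) : Prop :=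
  Conn G F ∧ F ⊆ S ∧ ∀ x ∈ F, ∀ y ∈ S, G.Adj x y → y ∈ F

/-- A region `C` with its two roots `O` and `Y`: all neighbours of `C` lie in `C ∪ O ∪ Y`. -/
structure Reg {V : Type} (G : SimpleGraph V) (C O Y : Set V) : Prop where
  conn : Conn G C
  connO : Conn G O
  connY : Conn G Y
  dCO : Disjoint C O
  dCY : Disjoint C Y
  dOY : Disjoint O Y
  out : ∀ x ∈ C, ∀ u, G.Adj x u → u ∈ C ∨ u ∈ O ∨ u ∈ Y
  tO : Tch G C O
  tY : Tch G C Y

/-- `H` is a minimum cut of `C` between `O` and `Y`, with the sets `P h` (`h ∈ H`) of Menger. -/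
structure IsCut {V : Type} (G : SimpleGraph V) (O Y C H : Set V) (P : V → Set V) : Prop where
  sub : H ⊆ C
  path : ∀ h ∈ H, Conn G (P h) ∧ h ∈ P h ∧ P h ⊆ C ∧ P h ∩ H = {h} ∧ Tch G (P h) O ∧
    Tch G (P h) Y
  dj : ∀ h ∈ H, ∀ h' ∈ H, h ≠ h' → Disjoint (P h) (P h')
  sep : ∀ F : Set V, F ⊆ C \ H → Conn G F → ¬ (Tch G F O ∧ Tch G F Y)

/-- The new root on the side of `Y`: `Y`, the cut `H`, and all components of `C - H` which
touch `Y`. -/
def Rt {V : Type} (G : SimpleGraph V) (C H Y : Set V) : Set V :=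
  Y ∪ H ∪ {v | v ∈ C \ H ∧ Tch G (Cmp G (C \ H) v) Y}

/-- A star in the region `C`: its centre `x`, and at least `d + 1` disjoint connected sets
`P y` (`y ∈ I`) in `C` which do not contain `x` and touch `x`, `O` and `Y`. -/
structure Star {V : Type} (G : SimpleGraph V) (d : ℕ) (C O Y : Set V) (x : V) (I : Set V)
    (P : V → Set V) : Prop where
  mem : x ∈ C
  card : d + 1 ≤ I.ncard
  leaf : ∀ y ∈ I, Conn G (P y) ∧ P y ⊆ C ∧ x ∉ P y ∧ Tch G (P y) {x} ∧ Tch G (P y) O ∧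
    Tch G (P y) Y
  dj : ∀ y ∈ I, ∀ y' ∈ I, y ≠ y' → Disjoint (P y) (P y')

/-- A bad star next to the vertex `u` (of the root `Y`), in a region which also sees `Y \ R`. -/
def Bad {V : Type} (G : SimpleGraph V) (d : ℕ) (C O Y R : Set V) (u : V) : Prop :=
  Tch G C (Y \ R) ∧ ∃ (x : V) (I : Set V) (P : V → Set V), G.Adj u x ∧ Star G d C O Y x I P

/-- The parameters: `s = d + c`, `K = c (c - 1)` bounds the number of special vertices of a
cut. -/
def Par (s d c K : ℕ) : Prop :=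
  s = d + c ∧ 1 ≤ c ∧ K = c * (c - 1) ∧ 6 * K ≤ d + 1 ∧ c * c ≤ d ∧ 2 * c ≤ d + 1

/-- **State with two roots**: `O` is the older root, `Y` the younger one, everything outside
`C` is coloured by `c`. From `C` one sees at most two colours on `O`; on `Y` one sees the colour
`y'` on the special vertices `R` and `y` on the others. -/
structure St {V : Type} (G : SimpleGraph V) (K : ℕ) (C O Y R : Set V) (c : V → Fin 5) :
    Prop where
  reg : Reg G C O Y
  vO : ∃ o o' : Fin 5, ∀ x ∈ C, ∀ u ∈ O, G.Adj x u → c u = o ∨ c u = o'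
  vY : ∃ y y' : Fin 5, ∀ x ∈ C, ∀ u ∈ Y, G.Adj x u → (u ∉ R → c u = y) ∧ (u ∈ R → c u = y')
  sub : R ⊆ Y
  card : R.ncard ≤ K

/-- A good extension `c` of the colouring `c₀` to the region `C` of a state with two roots:
defect at most `d` in `C`; a vertex outside `C` with a neighbour of its own colour in `C` is a
special vertex (of `Y`); it has at most `K` such neighbours and then there is a bad star. -/
structure Good2 {V : Type} (G : SimpleGraph V) (d K : ℕ) (C O Y R : Set V)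
    (c₀ c : V → Fin 5) : Prop where
  off : ∀ v, v ∉ C → c v = c₀ v
  defect : ∀ x ∈ C, {y | G.Adj x y ∧ c y = c x}.ncard ≤ d
  conf : ∀ x ∈ C, ∀ u, u ∉ C → G.Adj x u → c u = c x → u ∈ R
  few : ∀ u ∈ R, {x | x ∈ C ∧ G.Adj u x ∧ c x = c u}.ncard ≤ K
  bad : ∀ u ∈ R, (∃ x ∈ C, G.Adj u x ∧ c x = c u) → Bad G d C O Y R u

/-- **State with one root** `Z` (possibly empty). -/
structure St1 {V : Type} (G : SimpleGraph V) (C Z : Set V) (c : V → Fin 5) : Prop where
  conn : Conn G C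
  connZ : Z = ∅ ∨ Conn G Z
  dCZ : Disjoint C Z
  out : ∀ x ∈ C, ∀ u, G.Adj x u → u ∈ C ∨ u ∈ Z
  vZ : ∃ z z' : Fin 5, ∀ x ∈ C, ∀ u ∈ Z, G.Adj x u → c u = z ∨ c u = z'

/-- A good extension for a state with one root: no conflict with the root. -/
structure Good1 {V : Type} (G : SimpleGraph V) (d : ℕ) (C : Set V) (c₀ c : V → Fin 5) :
    Prop where
  off : ∀ v, v ∉ C → c v = c₀ v
  defect : ∀ x ∈ C, {y | G.Adj x y ∧ c y = c x}.ncard ≤ d
  conf : ∀ x ∈ C, ∀ u, u ∉ C → G.Adj x u → c u ≠ c x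

open Classical in
/-- Colour the special vertices `RH` by `g` and the rest of the cut `H` by `f`. -/
noncomputable def paint {V : Type} (c₀ : V → Fin 5) (H RH : Set V) (f g : Fin 5) : V → Fin 5 :=
  fun v => if v ∈ RH then g else if v ∈ H then f else c₀ v

/-- The result of gluing: a cut `H` with its special vertices `RH`, and a colouring `c` of
everything, good on all components of `C - H`. -/
structure Node {V : Type} (G : SimpleGraph V) (d K : ℕ) (C O Y R H RH : Set V)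
    (P : V → Set V) (c₀ c : V → Fin 5) (f g : Fin 5) : Prop where
  st : St G K C O Y R c₀
  ne : H.Nonempty
  cut : IsCut G O Y C H P
  sub : RH ⊆ H
  card : RH.ncard ≤ K
  degM : ∀ v ∈ H \ RH, (nb G v (H \ RH)).ncard ≤ d
  degR : ∀ x ∈ RH, d + 1 ≤ (nb G x H).ncard
  fg : f ≠ g
  cf : ∀ v ∈ H \ RH, c v = f
  cg : ∀ v ∈ RH, c v = g
  off : ∀ v, v ∉ C → c v = c₀ v
  fvis : ∀ x ∈ C, ∀ u, u ∉ C → G.Adj x u → c₀ u ≠ f
  gvis : ∀ x ∈ C, ∀ u, u ∉ C → G.Adj x u → c₀ u = g → u ∈ R ∧ Tch G C (Y \ R)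
  kidO : ∀ F, IsCmp G (C \ H) F → Tch G F O → Good2 G d K F O (Rt G C H Y) RH c c
  kidY : ∀ F, IsCmp G (C \ H) F → Tch G F Y → Good2 G d K F Y (Rt G C H O) RH c c
  kid0 : ∀ F, IsCmp G (C \ H) F → ¬ Tch G F O → ¬ Tch G F Y → Good1 G d F c c

theorem Tch.symm {V : Type} {G : SimpleGraph V} {S T : Set V} (h : Tch G S T) : Tch G T S := by
  obtain ⟨x, hx, y, hy, h⟩ := h
  exact ⟨y, hy, x, hx, h.symm⟩

theorem Tch.mono {V : Type} {G : SimpleGraph V} {S T S' T' : Set V} (h : Tch G S T)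
    (hS : S ⊆ S') (hT : T ⊆ T') : Tch G S' T' := by
  obtain ⟨x, hx, y, hy, h⟩ := h
  exact ⟨x, hS hx, y, hT hy, h⟩

theorem Reg.symm {V : Type} {G : SimpleGraph V} {C O Y : Set V} (h : Reg G C O Y) :
    Reg G C Y O :=
  ⟨h.conn, h.connY, h.connO, h.dCY, h.dCO, h.dOY.symm,
    fun x hx u hu => (h.out x hx u hu).imp_right Or.symm, h.tY, h.tO⟩

theorem IsCut.symm {V : Type} {G : SimpleGraph V} {O Y C H : Set V} {P : V → Set V}
    (h : IsCut G O Y C H P) : IsCut G Y O C H P :=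
  ⟨h.sub, fun x hx => ⟨(h.path x hx).1, (h.path x hx).2.1, (h.path x hx).2.2.1,
    (h.path x hx).2.2.2.1, (h.path x hx).2.2.2.2.2, (h.path x hx).2.2.2.2.1⟩, h.dj,
    fun F hF hc ht => h.sep F hF hc ht.symm⟩

end Pool.K3F
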