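import Pool.Agent.Work.MP_768e99_five.Defs

/-!
# Five colours for `K_{3,s}`-minor-free graphs: blocks

Block `X` is one file `B_X.lean` in this folder (imports this file, namespace `Pool.K3F`, the open
lines below) proving `theorem p_X : Stmt_X`; if `Stmt_X` depends on other blocks, these are
hypotheses `(hA : Stmt_A) → ...` of `p_X` in the order of the column `uses`
(`theorem p_X (hA : Stmt_A) (hB : Stmt_B) : Stmt_X`). Auxiliary lemmas are prefixed `X_`.
-/

set_option autoImplicit false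

namespace Pool.K3F

open Pool.Agent.Work.MP_768e99_co

/-! ### Connected sets -/

/-- **CN1.** Two connected sets which touch or meet have a connected union. -/
def Stmt_CN1 : Prop := ∀ (V : Type) (G : SimpleGraph V) (S T : Set V), Conn G S → Conn G T →
  (Tch G S T ∨ (S ∩ T).Nonempty) → Conn G (S ∪ T)

/-- **CN2.** `Q` connected, every member of the family `𝓢` is connected and touches or meets `Q`:
the union is connected. -/
def Stmt_CN2 : Prop := ∀ (V : Type) (G : SimpleGraph V) (Q : Set V) (𝓢 : Set (Set V)),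
  Conn G Q → (∀ S ∈ 𝓢, Conn G S ∧ (Tch G S Q ∨ (S ∩ Q).Nonempty)) → Conn G (Q ∪ ⋃₀ 𝓢)

/-- **CMP.** Components: `Cmp G S v` is a component of `S` containing `v`; it is the only one;
two components of `S` are equal or disjoint; a connected subset of `S` meeting a component lies in
it. (The union of two connected sets with a common point is connected: use this directly from the
definition of `Conn`, or prove it as a lemma `CMP_union`.) -/
def Stmt_CMP : Prop := ∀ (V : Type) (G : SimpleGraph V) (S : Set V),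
  (∀ v ∈ S, IsCmp G S (Cmp G S v) ∧ v ∈ Cmp G S v) ∧
  (∀ F, IsCmp G S F → ∀ v ∈ F, Cmp G S v = F) ∧
  (∀ F F', IsCmp G S F → IsCmp G S F' → F ≠ F' → Disjoint F F') ∧
  (∀ F, IsCmp G S F → ∀ T, T ⊆ S → Conn G T → (T ∩ F).Nonempty → T ⊆ F)

/-- **HIT** (first hit). `F` connected, `f ∈ F`, `F` meets `Z`: a connected `T ⊆ F` contains `f`
and meets `Z` in exactly one point. Proof: if `f ∈ Z` take `{f}`. Else let `D` be the component of
`f` in `F \ Z`; as `F` is connected and `D ≠ F`, some `a ∈ D` is adjacent to some `z ∈ F \ D`, and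
`z ∈ Z` since `D` is closed in `F \ Z`; `T = D ∪ {z}`. -/
def Stmt_HIT : Prop := ∀ (V : Type) (G : SimpleGraph V) (F Z : Set V) (f : V), Conn G F →
  f ∈ F → (F ∩ Z).Nonempty → ∃ T ⊆ F, Conn G T ∧ f ∈ T ∧ ∃ z, T ∩ Z = {z}

/-- **HIT2.** `C` connected, `W₁` and `W₂` disjoint, both meet `C`: a connected `T ⊆ C` meets each
of them in exactly one point. Proof: HIT from a point of `W₁ ∩ C` to `W₂` gives `T'` with
`T' ∩ W₂ = {z₂}`; HIT in `T'` from `z₂` to `W₁`. -/
def Stmt_HIT2 : Prop := ∀ (V : Type) (G : SimpleGraph V) (C W₁ W₂ : Set V), Conn G C →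
  Disjoint W₁ W₂ → (C ∩ W₁).Nonempty → (C ∩ W₂).Nonempty →
  ∃ T ⊆ C, Conn G T ∧ (∃ z, T ∩ W₁ = {z}) ∧ ∃ z, T ∩ W₂ = {z}

/-- **K3.** A `K_{3,s}` minor from three centres and at least `s` leaves. -/
def Stmt_K3 : Prop := ∀ (V : Type) (G : SimpleGraph V) (s : ℕ) (A₁ A₂ A₃ : Set V) (ι : Type)
  [Finite ι] (I : Set ι) (B : ι → Set V), Conn G A₁ → Conn G A₂ → Conn G A₃ →
  Disjoint A₁ A₂ → Disjoint A₁ A₃ → Disjoint A₂ A₃ →
  (∀ y ∈ I, Conn G (B y) ∧ Disjoint A₁ (B y) ∧ Disjoint A₂ (B y) ∧ Disjoint A₃ (B y) ∧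
    Tch G (B y) A₁ ∧ Tch G (B y) A₂ ∧ Tch G (B y) A₃) →
  (∀ y ∈ I, ∀ y' ∈ I, y ≠ y' → Disjoint (B y) (B y')) → s ≤ I.ncard →
  KM G Set.univ Set.univ 3 s

/-! ### The cut -/

/-- **CUT.** A minimum cut with the disjoint sets of Menger. Proof: `P₀ = {x ∈ C | x touches O}`,
`Q₀ = {x ∈ C | x touches Y}`; let `H ⊆ C` have the least number of elements among the sets such
that no connected subset of `C \ H` meets `P₀` and `Q₀`. `stmt_MEN` of
Work/MP_216d61_lc_full/MEN.lean (import `Pool.Agent.Work.MP_768e99_zero.MEN`, whose lemmas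
`MenAux.conn_to`, `MenAux.conn_of` compare the two notions of connected sets) with `k = |H|`,
`U = C` gives `k` disjoint connected subsets `D i` of `C`, each meeting `P₀` and `Q₀`, hence
each meeting `H`; as there are `k = |H|` of them, each meets `H` in exactly one point and every
`h ∈ H` is in exactly one `D i =: P h`. `H` is nonempty because `C` itself is connected and
meets `P₀` and `Q₀`. -/
def Stmt_CUT : Prop := ∀ (V : Type) [Fintype V] (G : SimpleGraph V) (C O Y : Set V),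
  Reg G C O Y → ∃ (H : Set V) (P : V → Set V), H.Nonempty ∧ IsCut G O Y C H P

/-- **SIDE.** The new root is connected, also without one vertex of the cut. Proof: it is `Y`
together with the components of `C \ H` touching `Y` (all connected and touching `Y`: CN2), and
then single vertices `h ∈ H`, each adjacent to a vertex of this connected set: `P h` is connected,
contains `h` and touches `Y`, say `w ∈ P h` is adjacent to `Y`; if `w = h` fine. Else `w ∈ C \ H`
(as `P h ∩ H = {h}`); let `D = Cmp G (C \ H) w`; `P h` is connected and contains `h ∉ D`, so some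
`a ∈ D ∩ P h` is adjacent to some `b ∈ P h \ D`; `b ∈ C \ H` would give `b ∈ D`, so `b = h`. -/
def Stmt_SIDE : Prop := ∀ (V : Type) (G : SimpleGraph V) (C O Y H : Set V) (P : V → Set V),
  Reg G C O Y → IsCut G O Y C H P →
  Conn G (Rt G C H Y) ∧ ∀ x ∈ H, Conn G (Rt G C H Y \ {x})

/-- **KID.** Children touching `O`: `(F; O, Rt)` is a region; the vertices of the new root which
are visible from `F` lie in `H`. Proof: `F` does not touch `Y` by `sep`; a vertex `v` of `F` in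
`Rt` would have `Cmp G (C \ H) v = F` touching `Y`; a neighbour of `F` in `C \ H` lies in `F`;
`F` touches `H` because `C` is connected and `∅ ≠ H`, `F ⊆ C \ H` is closed in `C \ H`. -/
def Stmt_KID : Prop := ∀ (V : Type) (G : SimpleGraph V) (C O Y H : Set V) (P : V → Set V),
  Reg G C O Y → H.Nonempty → IsCut G O Y C H P → ∀ F, IsCmp G (C \ H) F → Tch G F O →
  Reg G F O (Rt G C H Y) ∧ ∀ x ∈ F, ∀ u ∈ Rt G C H Y, G.Adj x u → u ∈ H

/-- **KID0.** Children touching neither root: the same with the only root `Rt G C H Y`. -/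
def Stmt_KID0 : Prop := ∀ (V : Type) (G : SimpleGraph V) (C O Y H : Set V) (P : V → Set V),
  Reg G C O Y → IsCut G O Y C H P → ∀ F, IsCmp G (C \ H) F → ¬ Tch G F O → ¬ Tch G F Y →
  Disjoint F (Rt G C H Y) ∧ ∀ x ∈ F, ∀ u, G.Adj x u → u ∈ F ∨ u ∈ H

/-! ### The structure of the cut -/

/-- **DEG.** Every vertex of the cut has at most `s - 1` neighbours in it (centres `{x}`, `O`,
`Y`; leaves `P y` for the neighbours `y`). -/
def Stmt_DEG : Prop := ∀ (V : Type) [Fintype V] (G : SimpleGraph V) (s : ℕ) (C O Y H : Set V)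
  (P : V → Set V), Free G s → Reg G C O Y → IsCut G O Y C H P → ∀ x ∈ H, (nb G x H).ncard < s

/-- **LNK.** Two nonadjacent vertices of the cut are joined by a connected set of `C` which avoids
all sets `P y` of their neighbours `y` in the cut but two. Proof:
`W i = {x i} ∪ ⋃ P y` over the neighbours `y ∈ H` of `x i`. If `y` is a common neighbour:
`X = {x₁, x₂} ∪ P y`. Otherwise `W₁`, `W₂` are disjoint (the `P` are disjoint and `P x₁`, `P x₂`
are not in them, as `x₁`, `x₂` are not adjacent); take `T` from HIT2, with `T ∩ W₁ = {z₁}`,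
`T ∩ W₂ = {z₂}`; `z₁ = x₁` or `z₁ ∈ P y₁`, the same for `z₂`; `X` = the union of `{x₁}`, `P y₁`,
`T`, `P y₂`, `{x₂}`. -/
def Stmt_LNK : Prop := ∀ (V : Type) [Fintype V] (G : SimpleGraph V) (C O Y H : Set V)
  (P : V → Set V), Reg G C O Y → IsCut G O Y C H P → ∀ x₁ ∈ H, ∀ x₂ ∈ H, x₁ ≠ x₂ →
  ¬ G.Adj x₁ x₂ → ∃ X ⊆ C, Conn G X ∧ x₁ ∈ X ∧ x₂ ∈ X ∧ ∃ y₁ y₂, ∀ y ∈ nb G x₁ H ∪ nb G x₂ H,
    y ≠ y₁ → y ≠ y₂ → Disjoint X (P y)

/-- **PAIR.** `|N(x₁) ∪ N(x₂)| ≤ s + 1` in the cut for nonadjacent `x₁`, `x₂` (centres `X`, `O`,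
`Y`; leaves `P y` for the `y` different from `y₁`, `y₂`). -/
def Stmt_PAIR : Prop := ∀ (V : Type) [Fintype V] (G : SimpleGraph V) (s : ℕ) (C O Y H : Set V)
  (P : V → Set V), Free G s → Reg G C O Y → IsCut G O Y C H P → ∀ x₁ ∈ H, ∀ x₂ ∈ H, x₁ ≠ x₂ →
  ¬ G.Adj x₁ x₂ → (nb G x₁ H ∪ nb G x₂ H).ncard ≤ s + 1

/-- **QUAD.** At most `c` pairwise nonadjacent vertices of the cut have at least `d + 1`
neighbours in it. Proof: suppose `x₀, ..., x_c` do (choose `c + 1` elements of `T`).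
`|N(x₀) \ N(xᵢ)| = |N(x₀) ∪ N(xᵢ)| - |N(xᵢ)| ≤ (d + c + 1) - (d + 1) = c`, and
`|N(x₀)| ≥ d + 1 > c * c`, so there is a common neighbour `u ∈ H` of all. Centres `{x₀} ∪ P u`
(connected, `x₀` is adjacent to `u ∈ P u`), `O`, `Y`; leaves `P y` for
`y ∈ (N(x₀) \ {u}) ∪ {x₁, ..., x_c}` (`P xᵢ` contains `xᵢ`, adjacent to `u`; `xᵢ ∉ N(x₀)`): at
least `d + c = s`. -/
def Stmt_QUAD : Prop := ∀ (V : Type) [Fintype V] (G : SimpleGraph V) (s d c K : ℕ)
  (C O Y H : Set V) (P : V → Set V), Par s d c K → Free G s → Reg G C O Y →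
  IsCut G O Y C H P → ∀ T ⊆ H, (∀ x ∈ T, d + 1 ≤ (nb G x H).ncard) →
  (∀ x ∈ T, ∀ y ∈ T, ¬ G.Adj x y) → T.ncard ≤ c

/-- **RM.** The special vertices of the cut (finite graphs only). Proof: by induction on `j`:
there is `R ⊆ H` with `|R| ≤ c * j` and `d + 1 ≤ |nb x H|` for `x ∈ R`, such that every
`v ∈ H \ R` with `d + 1 ≤ |nb v (H \ R)|` has at least `j` neighbours in `R`. Step: let `R'` be a
maximal set of pairwise nonadjacent vertices `v ∈ H \ R` with `d + 1 ≤ |nb v (H \ R)|`;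
`|R'| ≤ c`; `R ∪ R'` works for `j + 1`. For `j = c - 1`: a vertex `v ∈ H \ R` with
`d + 1 ≤ |nb v (H \ R)|` would have at least `d + 1 + (c - 1) = d + c` neighbours in `H`. -/
def Stmt_RM : Prop := ∀ (V : Type) [Fintype V] (G : SimpleGraph V) (d c : ℕ) (H : Set V),
  1 ≤ c → (∀ x ∈ H, (nb G x H).ncard < d + c) →
  (∀ T ⊆ H, (∀ x ∈ T, d + 1 ≤ (nb G x H).ncard) → (∀ x ∈ T, ∀ y ∈ T, ¬ G.Adj x y) →
    T.ncard ≤ c) →
  ∃ R ⊆ H, R.ncard ≤ c * (c - 1) ∧ (∀ v ∈ H \ R, (nb G v (H \ R)).ncard ≤ d) ∧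
    ∀ x ∈ R, d + 1 ≤ (nb G x H).ncard

/-- **BST.** The star of a special vertex `x ∈ H` of the cut: `I = nb G x H` with the sets `P`. -/
def Stmt_BST : Prop := ∀ (V : Type) (G : SimpleGraph V) (d : ℕ) (C O Y H : Set V)
  (P : V → Set V), IsCut G O Y C H P → ∀ x ∈ H, d + 1 ≤ (nb G x H).ncard →
  Star G d C O Y x (nb G x H) P

/-! ### At most two children on one side conflict with a special vertex -/

/-- **AN1.** Centres `{x, x'₁, x'₂, x'₃}`, `O`, `Q`; leaves `P j y` for `y ∈ J j`, `j : Fin 3`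
(use `K3` with `ι = Fin 3 × V`). -/
def Stmt_AN1 : Prop := ∀ (V : Type) [Fintype V] (G : SimpleGraph V) (s d : ℕ) (O Q : Set V)
  (x : V) (F : Fin 3 → Set V) (x' : Fin 3 → V) (I J : Fin 3 → Set V)
  (P : Fin 3 → V → Set V), Conn G O → Conn G Q → Disjoint O Q → x ∉ O → x ∉ Q →
  (∀ j, Disjoint (F j) O ∧ Disjoint (F j) Q ∧ x ∉ F j) →
  (∀ i j, i ≠ j → Disjoint (F i) (F j)) →
  (∀ j, G.Adj x (x' j) ∧ Star G d (F j) O (insert x Q) (x' j) (I j) (P j)) →
  (∀ j, J j ⊆ I j ∧ ∀ y ∈ J j, Tch G (P j y) Q) → s ≤ ∑ j, (J j).ncard →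
  KM G Set.univ Set.univ 3 s

/-- **TJ.** In a connected region `F` which touches `Q`, the centre `x'` of a star is joined to
`Q` by a connected set avoiding all leaves but one. Proof: `Z = {x'} ∪ ⋃ P y`; HIT from a vertex
`f ∈ F` adjacent to `Q` gives `T₀` with `T₀ ∩ Z = {z}`; if `z = x'` take `T₀` (`y₀` arbitrary),
if `z ∈ P y₀` take `T₀ ∪ P y₀ ∪ {x'}`. -/
def Stmt_TJ : Prop := ∀ (V : Type) (G : SimpleGraph V) (d : ℕ) (F O Y Q : Set V)
  (x' : V) (I : Set V) (P : V → Set V), Conn G F → Tch G F Q → Star G d F O Y x' I P →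
  ∃ T ⊆ F, Conn G T ∧ x' ∈ T ∧ Tch G T Q ∧ ∃ y₀, ∀ y ∈ I, y ≠ y₀ → Disjoint T (P y)

/-- **AN2.** Centres `{x}`, `O`, `Q ∪ T₁ ∪ T₂ ∪ T₃` (`T j` from TJ); leaves `P j y` for `y ∈ J j`,
`y ≠ y₀ j`. -/
def Stmt_AN2 : Prop := ∀ (V : Type) [Fintype V] (G : SimpleGraph V) (s d : ℕ) (O Q : Set V)
  (x : V) (F : Fin 3 → Set V) (x' : Fin 3 → V) (I J : Fin 3 → Set V)
  (P : Fin 3 → V → Set V), Conn G O → Conn G Q → Disjoint O Q → x ∉ O → x ∉ Q →
  (∀ j, Conn G (F j) ∧ Disjoint (F j) O ∧ Disjoint (F j) Q ∧ x ∉ F j ∧ Tch G (F j) Q) →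
  (∀ i j, i ≠ j → Disjoint (F i) (F j)) →
  (∀ j, Star G d (F j) O (insert x Q) (x' j) (I j) (P j)) →
  (∀ j, J j ⊆ I j ∧ ∀ y ∈ J j, Tch G (P j y) {x}) → s + 3 ≤ ∑ j, (J j).ncard →
  KM G Set.univ Set.univ 3 s

/-- **ANT.** Three bad children give a `K_{3,s}` minor. Proof: `a j` = number of the `y ∈ I j`
with `P j y` touching `x`, `b j` = number of those touching `Q`; `a j + b j ≥ d + 1`. If
`∑ b ≥ s` use AN1, if `∑ a ≥ s + 3` use AN2; otherwise
`3 (d + 1) ≤ (s - 1) + (s + 2) = 2 d + 2 c + 1`, against `2 c ≤ d + 1`. -/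
def Stmt_ANT : Prop := ∀ (V : Type) [Fintype V] (G : SimpleGraph V) (s d c K : ℕ)
  (O Q : Set V) (x : V) (F : Fin 3 → Set V), Par s d c K → Conn G O → Conn G Q →
  Disjoint O Q → x ∉ O → x ∉ Q →
  (∀ j, Conn G (F j) ∧ Disjoint (F j) O ∧ Disjoint (F j) Q ∧ x ∉ F j ∧ Tch G (F j) Q) →
  (∀ i j, i ≠ j → Disjoint (F i) (F j)) →
  (∀ j, ∃ (x' : V) (I : Set V) (P : V → Set V), G.Adj x x' ∧
    Star G d (F j) O (insert x Q) x' I P) → KM G Set.univ Set.univ 3 s

/-- **CNT.** Counting: every element of `S` lies in its class `κ y`, every class contains at most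
`K` elements of `S`, and there are no three elements of `S` in three different classes. -/
def Stmt_CNT : Prop := ∀ (V : Type) [Fintype V] (S : Set V) (κ : V → Set V) (K : ℕ),
  (∀ y ∈ S, {z | z ∈ S ∧ κ z = κ y}.ncard ≤ K) →
  (∀ y : Fin 3 → V, (∀ j, y j ∈ S) → ¬ (∀ i j, i ≠ j → κ (y i) ≠ κ (y j))) →
  S.ncard ≤ 2 * K

/-- **SDC.** At most `2 K` conflicts of a special vertex `x` of the cut with the children on the
side of `O`. Proof: CNT for this set of vertices and `κ = Cmp G (C \ H)`: each class contains at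
most `K` elements (`Good2.few`); three elements in three different components `F j` give three
bad children (`Good2.bad`), so ANT with `Q = Rt G C H Y \ {x}` (connected by SIDE,
`insert x Q = Rt G C H Y` since `x ∈ H`; `F j` touches `Rt \ RH ⊆ Q`; `F j` is disjoint from `Rt`
by KID) gives a `K_{3,s}` minor. -/
def Stmt_SDC : Prop := ∀ (V : Type) [Fintype V] (G : SimpleGraph V) (s d c K : ℕ)
  (C O Y H RH : Set V) (P : V → Set V) (col : V → Fin 5), Par s d c K → Free G s →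
  Reg G C O Y → H.Nonempty → IsCut G O Y C H P → RH ⊆ H →
  (∀ F, IsCmp G (C \ H) F → Tch G F O → Good2 G d K F O (Rt G C H Y) RH col col) →
  ∀ x ∈ RH, {y | y ∈ C \ H ∧ Tch G (Cmp G (C \ H) y) O ∧ G.Adj x y ∧ col y = col x}.ncard ≤
    2 * K

/-! ### Colours and gluing -/

/-- **COL.** Choice of the two new colours. Proof: if `o, o', y, y'` are at most three colours,
take two others. Otherwise `f` is the fifth colour; if `C` does not touch `Y \ R` take `g = y`
(not visible), else `g = y'`. -/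
def Stmt_COL : Prop := ∀ (V : Type) (G : SimpleGraph V) (K : ℕ) (C O Y R : Set V)
  (c₀ : V → Fin 5), St G K C O Y R c₀ → ∃ f g : Fin 5, f ≠ g ∧
    (∀ x ∈ C, ∀ u, u ∉ C → G.Adj x u → c₀ u ≠ f) ∧
    (∀ x ∈ C, ∀ u, u ∉ C → G.Adj x u → c₀ u = g → u ∈ R ∧ Tch G C (Y \ R))

/-- **GL.** Pure gluing over the components of `S` (`c v = cF (Cmp G S v) v` for `v ∈ S`). -/
def Stmt_GL : Prop := ∀ (V : Type) (G : SimpleGraph V) (S : Set V) (c₁ : V → Fin 5)
  (cF : Set V → V → Fin 5), ∃ c : V → Fin 5, (∀ v, v ∉ S → c v = c₁ v) ∧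
    ∀ F, IsCmp G S F → ∀ v ∈ F, c v = cF F v

/-- **TR.** `Good2` and `Good1` depend only on the colours of the region, its neighbours and
`R`. -/
def Stmt_TR : Prop := ∀ (V : Type) (G : SimpleGraph V) (d : ℕ) (F : Set V)
  (c₁ c' c : V → Fin 5), (∀ v ∈ F, c v = c' v) →
  (∀ x ∈ F, ∀ u, G.Adj x u → c u = c' u) →
  (∀ (K : ℕ) (O Y R : Set V), (∀ u ∈ R, c u = c' u) → Good2 G d K F O Y R c₁ c' →
    Good2 G d K F O Y R c c) ∧ (Good1 G d F c₁ c' → Good1 G d F c c)

/-- **KST.** The children of a state are states. `c₁ = paint c₀ H RH f g` agrees with `c₀` outside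
`C`; the vertices of `H \ RH` have colour `f`, those of `RH` colour `g`. -/
def Stmt_KST : Prop := ∀ (V : Type) (G : SimpleGraph V) (K : ℕ) (C O Y R H RH : Set V)
  (P : V → Set V) (c₀ : V → Fin 5) (f g : Fin 5), St G K C O Y R c₀ → H.Nonempty →
  IsCut G O Y C H P → RH ⊆ H → RH.ncard ≤ K →
  (∀ F, IsCmp G (C \ H) F → Tch G F O → St G K F O (Rt G C H Y) RH (paint c₀ H RH f g)) ∧
  (∀ F, IsCmp G (C \ H) F → Tch G F Y → St G K F Y (Rt G C H O) RH (paint c₀ H RH f g)) ∧
  (∀ F, IsCmp G (C \ H) F → ¬ Tch G F O → ¬ Tch G F Y →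
    St1 G F (Rt G C H Y) (paint c₀ H RH f g))

/-- **ND.** Gluing the colourings of the children (from the induction hypotheses) to a `Node`.
Proof: for every component `F` of `C \ H` choose a good extension `cF F` of
`c₁ = paint c₀ H RH f g` (KST; `F` has fewer elements than `C` since `H` is nonempty), glue by GL
(`S = C \ H`), and transfer by TR: the neighbours of `F` outside `F` lie in `H ∪ O ∪ Y`, where
`c = c₁ = cF F`; also on `RH ⊆ H`. -/
def Stmt_ND : Prop := ∀ (V : Type) [Fintype V] (G : SimpleGraph V) (d K : ℕ)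
  (C O Y R H RH : Set V) (P : V → Set V) (c₀ : V → Fin 5) (f g : Fin 5),
  St G K C O Y R c₀ → H.Nonempty → IsCut G O Y C H P → RH ⊆ H → RH.ncard ≤ K →
  (∀ v ∈ H \ RH, (nb G v (H \ RH)).ncard ≤ d) → (∀ x ∈ RH, d + 1 ≤ (nb G x H).ncard) →
  f ≠ g → (∀ x ∈ C, ∀ u, u ∉ C → G.Adj x u → c₀ u ≠ f) →
  (∀ x ∈ C, ∀ u, u ∉ C → G.Adj x u → c₀ u = g → u ∈ R ∧ Tch G C (Y \ R)) →
  (∀ (C' O' Y' R' : Set V) (c' : V → Fin 5), C'.ncard < C.ncard → St G K C' O' Y' R' c' →
    ∃ c, Good2 G d K C' O' Y' R' c' c) →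
  (∀ (C' Z' : Set V) (c' : V → Fin 5), C'.ncard < C.ncard → St1 G C' Z' c' →
    ∃ c, Good1 G d C' c' c) →
  ∃ c, Node G d K C O Y R H RH P c₀ c f g

/-! ### The conclusions for a node -/

/-- **NC.** A vertex `x ∈ C` with a neighbour `u ∉ C` of its own colour: then `x ∈ RH`, `c u = g`
and `u ∈ R`. Proof: `x ∈ H \ RH` has colour `f`, excluded by `fvis`; if `x` lies in a component
`F` of `C \ H` then `u ∈ RH ⊆ C` by `conf` of the child (or `kid0`), contradiction; so `x ∈ RH`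
and `gvis` applies. -/
def Stmt_NC : Prop := ∀ (V : Type) (G : SimpleGraph V) (d K : ℕ) (C O Y R H RH : Set V)
  (P : V → Set V) (c₀ c : V → Fin 5) (f g : Fin 5), Node G d K C O Y R H RH P c₀ c f g →
  ∀ x ∈ C, ∀ u, u ∉ C → G.Adj x u → c u = c x →
    x ∈ RH ∧ u ∈ R ∧ c u = g ∧ Tch G C (Y \ R)

/-- **NM.** The defect of the vertices of `C \ RH`. Proof: for `x` in a component `F` of `C \ H`
it is `defect` of the child. For `x ∈ H \ RH`: a neighbour `y` of colour `f` is not outside `C`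
(NC: `x ∈ RH` otherwise), not in `RH` (colour `g`), not in a component `F` of `C \ H` (`conf` of
the child for `y ∈ F` and `u = x ∉ F` gives `x ∈ RH`; for `kid0` it is excluded), so
`y ∈ nb G x (H \ RH)`. -/
def Stmt_NM : Prop := ∀ (V : Type) [Fintype V] (G : SimpleGraph V) (d K : ℕ)
  (C O Y R H RH : Set V) (P : V → Set V) (c₀ c : V → Fin 5) (f g : Fin 5),
  Node G d K C O Y R H RH P c₀ c f g → ∀ x ∈ C, x ∉ RH → {y | G.Adj x y ∧ c y = c x}.ncard ≤ d

/-- **NR.** The defect of a special vertex `x ∈ RH`. Proof: a neighbour `y` of colour `c x = g` is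
in `R` (at most `K`, NC), in `RH \ {x}` (at most `K - 1`), not in `H \ RH` (colour `f`), or in a
component `F` of `C \ H`: not one touching neither root (`kid0`), so it is counted by SDC for `O`
or by SDC for `Y` (with `O` and `Y` exchanged: `Reg.symm`, `IsCut.symm`): at most `4 K`.
Together at most `6 K - 1 ≤ d` (`K ≥ 1` as `x ∈ RH`). -/
def Stmt_NR : Prop := ∀ (V : Type) [Fintype V] (G : SimpleGraph V) (s d c K : ℕ)
  (C O Y R H RH : Set V) (P : V → Set V) (c₀ col : V → Fin 5) (f g : Fin 5), Par s d c K →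
  Free G s → Node G d K C O Y R H RH P c₀ col f g → ∀ x ∈ RH,
  {y | G.Adj x y ∧ col y = col x}.ncard ≤ d

/-- **NG.** A node gives a good extension. Proof: `off` is a field, `defect` is NM and NR, `conf`
is NC; `few`: for `u ∈ R` the set lies in `RH` by NC (`u ∉ C` since `R ⊆ Y`); `bad`: NC gives
`x ∈ RH` and that `C` touches `Y \ R`, and BST gives the star of `x`. -/
def Stmt_NG : Prop := ∀ (V : Type) [Fintype V] (G : SimpleGraph V) (s d c K : ℕ)
  (C O Y R H RH : Set V) (P : V → Set V) (c₀ col : V → Fin 5) (f g : Fin 5), Par s d c K →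
  Free G s → Node G d K C O Y R H RH P c₀ col f g → Good2 G d K C O Y R c₀ col

/-! ### Assembly -/

/-- **S2.** The step for two roots (CUT, DEG, QUAD, RM with `s = d + c`, COL, ND, NG). -/
def Stmt_S2 : Prop := ∀ (V : Type) [Fintype V] (G : SimpleGraph V) (s d c K : ℕ)
  (C O Y R : Set V) (c₀ : V → Fin 5), Par s d c K → Free G s → St G K C O Y R c₀ →
  (∀ (C' O' Y' R' : Set V) (c' : V → Fin 5), C'.ncard < C.ncard → St G K C' O' Y' R' c' →
    ∃ c, Good2 G d K C' O' Y' R' c' c) →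
  (∀ (C' Z' : Set V) (c' : V → Fin 5), C'.ncard < C.ncard → St1 G C' Z' c' →
    ∃ c, Good1 G d C' c' c) →
  ∃ c, Good2 G d K C O Y R c₀ c

/-- **S1.** The step for one root. Proof: take any `v ∈ C` and
`c₁ = Function.update c₀ v k` with `k` different from the two colours visible on `Z`.
A component `F` of `C \ {v}` touches `v` (`C` is connected). If `F` touches `Z`:
`St G K F Z {v} ∅ c₁` (older root `Z`); otherwise `St1 G F {v} c₁`. Glue by GL and TR
(`R = ∅`, so no conflicts): `v` has no neighbour of its colour, `c v = k`. -/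
def Stmt_S1 : Prop := ∀ (V : Type) [Fintype V] (G : SimpleGraph V) (d K : ℕ) (C Z : Set V)
  (c₀ : V → Fin 5), St1 G C Z c₀ →
  (∀ (C' O' Y' R' : Set V) (c' : V → Fin 5), C'.ncard < C.ncard → St G K C' O' Y' R' c' →
    ∃ c, Good2 G d K C' O' Y' R' c' c) →
  (∀ (C' Z' : Set V) (c' : V → Fin 5), C'.ncard < C.ncard → St1 G C' Z' c' →
    ∃ c, Good1 G d C' c' c) →
  ∃ c, Good1 G d C c₀ c

/-- **ALL.** Strong induction on the number of vertices of the region; every component of `G` is a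
state with one root `∅`; glue the components of `Set.univ` (GL, TR). -/
def Stmt_ALL : Prop := ∀ (V : Type) [Fintype V] (G : SimpleGraph V) (s d c K : ℕ),
  Par s d c K → Free G s → DefColorable G 5 d

/-- **FIN.** In terms of `HasBicliqueMinor`. Proof: `not_KM_of_not_minor`
(Work/MP_768e99_co/Main.lean), and `Par s d c K` for `s = d + c`, `K = c * (c - 1)`,
`2 ≤ c`, `6 * (c * (c - 1)) ≤ d + 1`. -/
def Stmt_FIN : Prop := ∀ (d c : ℕ), 2 ≤ c → 6 * (c * (c - 1)) ≤ d + 1 →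
  ∀ (V : Type) [Fintype V] (G : SimpleGraph V), ¬ HasBicliqueMinor G 3 (d + c) →
  DefColorable G 5 d

end Pool.K3F
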